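import Mathlib
import Pool.Agent.H11P.Sys

/-! The binomial moments: the asymptotic formula, for windows of any length. -/

set_option autoImplicit false

namespace Pool.Agent.H11S

open Finset Filter Pool.Agent.H11P

variable {k d : ℕ}

theorem mom_bounds2 (hSW : SWU) (hk : 1 ≤ k) (A z : ℕ) (hz1 : 1 ≤ z) (ε : ℝ) (hε : 0 < ε) (hε1 : ε ≤ 1 / 2) (C : ℝ)
    (hC : ∀ (z r L J : ℕ) (D : Finset ℕ), 1 ≤ z → D ⊆ Ioc J (J + L) → r ≤ d + 1 →
      ∑ U ∈ powersetCard r D, (hz z (qU U) ^ (k * (d + 1)) - 1) ≤ 2 * C * (L : ℝ) ^ r / z) : ∀ᶠ H : ℕ in atTop,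
    ∀ (c : Fin k → ℕ → ℤ) (α : Fin k → Fin (d + 1) → ℤ) (J L : ℕ) (D : Finset ℕ), D ⊆ Ioc J (J + L) →
    ∀ Λ : ℝ, 1 ≤ Λ → (L : ℝ) ≤ Λ * Real.log H ^ k → ((J + L : ℕ) : ℝ) ≤ Real.log H ^ A →
    (∀ i, ∀ n ∈ D, |(c i n : ℝ)| ≤ H * Real.log H ^ A) → ∀ r ≤ d + 1,
    (1 - ε) ^ (r * k) * (((kap (primorial z) / Real.log H) ^ k * copk c (primorial z) α D) ^ r / r.factorial -
      (r : ℝ) ^ 2 * kap (primorial z) ^ (r * k) * Λ ^ r / Real.log H -
      k * (d + 1) * (kap (primorial z) ^ (r * k) * (2 * C * Λ ^ r / z))) - k * Λ ^ r / Real.log H ≤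
      (∑ a ∈ bxk H (primorial z) α, ((cntk c a D).choose r : ℝ)) / (bxk H (primorial z) α).card ∧
    (∑ a ∈ bxk H (primorial z) α, ((cntk c a D).choose r : ℝ)) / (bxk H (primorial z) α).card ≤
    (1 + ε) ^ (r * k) * (((kap (primorial z) / Real.log H) ^ k * copk c (primorial z) α D) ^ r / r.factorial +
      kap (primorial z) ^ (r * k) * (2 * C * Λ ^ r / z)) + k * Λ ^ r / Real.log H := by
  filter_upwards [prodB (d := d) hSW hk A z (k * (d + 1) + 1) ε hε hε1, ev_log 1] with H h1 g1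
  intro c α J L D hD Λ hΛ hL hJL hc r hr
  obtain ⟨ℓ, hℓ⟩ : ∃ ℓ : ℝ, ℓ = Real.log H := ⟨_, rfl⟩
  rw [← hℓ] at g1 hL hJL hc h1 ⊢
  have hℓ0 : 0 < ℓ := by linarith
  have hzr : (1 : ℝ) ≤ z := by exact_mod_cast hz1
  have hk1 := kap_ge (primorial z) (primorial_pos z)
  obtain ⟨κ, hκ⟩ : ∃ κ, κ = kap (primorial z) := ⟨_, rfl⟩
  rw [← hκ] at h1 hk1 ⊢
  have hκ0 : 0 < κ := by linarith
  have hcardD : D.card ≤ L := by
    have := card_le_card hD
    rw [Nat.card_Ioc] at this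
    omega
  obtain ⟨X, hX⟩ : ∃ X, X = copk c (primorial z) α D := ⟨_, rfl⟩
  have hXL : X ≤ L := by
    rw [hX]
    unfold copk
    exact (card_filter_le _ _).trans hcardD
  have hcop := cop_eq c (primorial z) α D r
  rw [← hX] at hcop ⊢
  obtain ⟨T, hT⟩ : ∃ T, T = ∑ U ∈ powersetCard r D, (hz z (qU U) ^ (k * (d + 1)) - 1) := ⟨_, rfl⟩
  have hTle : T ≤ 2 * C * (L : ℝ) ^ r / z := by rw [hT]; exact hC z r L J D hz1 hD hr
  have hT0 : 0 ≤ T := by
    rw [hT]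
    apply sum_nonneg
    intro U _
    have := one_le_pow₀ (n := k * (d + 1)) (hz_ge z (qU U))
    linarith
  have hb : ∀ U ∈ powersetCard r D, _ := fun U hU => h1 c α U (J + L) (by
      rw [(mem_powersetCard.1 hU).2]; exact hr) (fun m hm => by
      have := hD ((mem_powersetCard.1 hU).1 hm)
      rw [mem_Ioc] at this
      exact this.2) hJL (fun i n hn => hc i n ((mem_powersetCard.1 hU).1 hn))
  have hnum : ((powersetCard r D).card : ℝ) ≤ (L : ℝ) ^ r := by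
    rw [card_powersetCard]
    calc ((D.card.choose r : ℕ) : ℝ) ≤ ((D.card ^ r : ℕ) : ℝ) := by exact_mod_cast Nat.choose_le_pow _ _
      _ ≤ (L : ℝ) ^ r := by
          push_cast
          have : (D.card : ℝ) ≤ L := by exact_mod_cast hcardD
          gcongr
  have hLr : (L : ℝ) ^ r ≤ Λ ^ r * ℓ ^ (r * k) := by
    calc (L : ℝ) ^ r ≤ (Λ * ℓ ^ k) ^ r := by gcongr
      _ = Λ ^ r * ℓ ^ (r * k) := by rw [mul_pow, ← pow_mul, mul_comm k r]
  -- the error from the box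
  have hE : (L : ℝ) ^ r * (k * (1 / ℓ ^ (k * (d + 1) + 1))) ≤ k * Λ ^ r / ℓ := by
    have h2 : ℓ ^ (r * k) ≤ ℓ ^ (k * (d + 1)) := by
      apply pow_le_pow_right₀ g1
      rw [mul_comm]
      exact Nat.mul_le_mul_left _ hr
    calc (L : ℝ) ^ r * (k * (1 / ℓ ^ (k * (d + 1) + 1))) ≤ (Λ ^ r * ℓ ^ (r * k)) * (k * (1 / ℓ ^ (k * (d + 1) + 1))) := by gcongr
      _ ≤ (Λ ^ r * ℓ ^ (k * (d + 1))) * (k * (1 / ℓ ^ (k * (d + 1) + 1))) := by gcongr
      _ = k * Λ ^ r / ℓ := by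
          rw [pow_succ]
          field_simp
  -- the error from the large primes
  have hTk : (κ / ℓ) ^ (r * k) * T ≤ κ ^ (r * k) * (2 * C * Λ ^ r / z) := by
    have hC0 : 0 ≤ 2 * C := by
      by_contra hcon
      push Not at hcon
      have h2 := hC 1 0 0 0 ∅ le_rfl (empty_subset _) (Nat.zero_le _)
      simp at h2
      have h3 : hz 1 (qU ∅) = 1 := by unfold hz qU; simp
      rw [h3] at h2
      simp at h2
      linarith
    calc (κ / ℓ) ^ (r * k) * T ≤ (κ / ℓ) ^ (r * k) * (2 * C * (L : ℝ) ^ r / z) := by gcongr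
      _ ≤ (κ / ℓ) ^ (r * k) * (2 * C * (Λ ^ r * ℓ ^ (r * k)) / z) := by gcongr
      _ = κ ^ (r * k) * (2 * C * Λ ^ r / z) := by
          rw [div_pow]
          field_simp
  have hμ : ((κ / ℓ) ^ k * (X : ℝ)) ^ r = (κ / ℓ) ^ (r * k) * (X : ℝ) ^ r := by
    rw [mul_pow, ← pow_mul, mul_comm k r]
  rw [mom_eq, hμ]
  constructor
  · -- lower bound
    have h2 := sum_le_sum fun U hU => (hb U hU).1
    have h3 : ∑ U ∈ powersetCard r D, (((1 - ε) * κ / ℓ) ^ (U.card * k) * (∏ i, Psi (c i) (primorial z) U (α i) -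
      k * (d + 1) * (hz z (qU U) ^ (k * (d + 1)) - 1)) - k * (1 / ℓ ^ (k * (d + 1) + 1))) =
      ((1 - ε) * κ / ℓ) ^ (r * k) * ((X.choose r : ℝ) - k * (d + 1) * T) - (powersetCard r D).card * (k * (1 / ℓ ^ (k * (d + 1) + 1))) := by
      rw [sum_sub_distrib, sum_const, nsmul_eq_mul, hcop, hT, mul_sum, ← sum_sub_distrib, mul_sum]
      congr 1
      apply sum_congr rfl
      intro U hU
      rw [(mem_powersetCard.1 hU).2]
    rw [h3] at h2
    refine le_trans ?_ h2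
    have h4 : ((powersetCard r D).card : ℝ) * (k * (1 / ℓ ^ (k * (d + 1) + 1))) ≤ k * Λ ^ r / ℓ := by
      refine le_trans ?_ hE
      gcongr
    apply sub_le_sub _ h4
    have e : (1 - ε) * κ / ℓ = (1 - ε) * (κ / ℓ) := by ring
    rw [e, mul_pow, mul_assoc ((1 - ε) ^ (r * k))]
    apply mul_le_mul_of_nonneg_left _ (by
      have : 0 ≤ 1 - ε := by linarith
      positivity)
    have h5 := choose_lower X r
    have h6 : (κ / ℓ) ^ (r * k) * ((r : ℝ) ^ 2 * (X : ℝ) ^ (r - 1)) ≤ (r : ℝ) ^ 2 * κ ^ (r * k) * Λ ^ r / ℓ := by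
      rcases Nat.eq_zero_or_pos r with h0 | h0
      · subst h0
        simp
      · have h7 : (X : ℝ) ^ (r - 1) ≤ Λ ^ r * ℓ ^ (k * (r - 1)) := by
          calc (X : ℝ) ^ (r - 1) ≤ (Λ * ℓ ^ k) ^ (r - 1) := by
                have : (X : ℝ) ≤ L := by exact_mod_cast hXL
                have := this.trans hL
                gcongr
            _ = Λ ^ (r - 1) * ℓ ^ (k * (r - 1)) := by rw [mul_pow, ← pow_mul]
            _ ≤ Λ ^ r * ℓ ^ (k * (r - 1)) := by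
                have : Λ ^ (r - 1) ≤ Λ ^ r := pow_le_pow_right₀ hΛ (by omega)
                gcongr
        have h8 : ℓ ^ (k * (r - 1)) * ℓ ≤ ℓ ^ (r * k) := by
          rw [← pow_succ]
          apply pow_le_pow_right₀ g1
          obtain ⟨r', rfl⟩ := Nat.exists_eq_add_of_lt h0
          simp only [zero_add, Nat.add_sub_cancel]
          nlinarith
        calc (κ / ℓ) ^ (r * k) * ((r : ℝ) ^ 2 * (X : ℝ) ^ (r - 1)) ≤ (κ / ℓ) ^ (r * k) * ((r : ℝ) ^ 2 * (Λ ^ r * ℓ ^ (k * (r - 1)))) := by gcongr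
          _ = (r : ℝ) ^ 2 * κ ^ (r * k) * Λ ^ r / ℓ * ((ℓ ^ (k * (r - 1)) * ℓ) / ℓ ^ (r * k)) := by
              rw [div_pow]
              field_simp
          _ ≤ (r : ℝ) ^ 2 * κ ^ (r * k) * Λ ^ r / ℓ * 1 := by
              apply mul_le_mul_of_nonneg_left _ (by positivity)
              rw [div_le_one (by positivity)]
              exact h8
          _ = (r : ℝ) ^ 2 * κ ^ (r * k) * Λ ^ r / ℓ := by ring
    have h9 : (κ / ℓ) ^ (r * k) * ((X : ℝ) ^ r / r.factorial - (r : ℝ) ^ 2 * (X : ℝ) ^ (r - 1)) ≤ (κ / ℓ) ^ (r * k) * (X.choose r : ℝ) := by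
      gcongr
    have h10 : (k : ℝ) * (d + 1) * ((κ / ℓ) ^ (r * k) * T) ≤ k * (d + 1) * (κ ^ (r * k) * (2 * C * Λ ^ r / z)) := by gcongr
    calc (κ / ℓ) ^ (r * k) * (X : ℝ) ^ r / r.factorial - (r : ℝ) ^ 2 * κ ^ (r * k) * Λ ^ r / ℓ - k * (d + 1) * (κ ^ (r * k) * (2 * C * Λ ^ r / z))
        ≤ (κ / ℓ) ^ (r * k) * (X : ℝ) ^ r / r.factorial - (κ / ℓ) ^ (r * k) * ((r : ℝ) ^ 2 * (X : ℝ) ^ (r - 1)) -
          (k : ℝ) * (d + 1) * ((κ / ℓ) ^ (r * k) * T) := by linarith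
      _ = (κ / ℓ) ^ (r * k) * ((X : ℝ) ^ r / r.factorial - (r : ℝ) ^ 2 * (X : ℝ) ^ (r - 1)) - (k : ℝ) * (d + 1) * ((κ / ℓ) ^ (r * k) * T) := by ring
      _ ≤ (κ / ℓ) ^ (r * k) * (X.choose r : ℝ) - (k : ℝ) * (d + 1) * ((κ / ℓ) ^ (r * k) * T) := by linarith
      _ = (κ / ℓ) ^ (r * k) * ((X.choose r : ℝ) - k * (d + 1) * T) := by ring
  · -- upper bound
    have h2 := sum_le_sum fun U hU => (hb U hU).2
    have h3 : ∑ U ∈ powersetCard r D, (((1 + ε) * κ / ℓ) ^ (U.card * k) * (∏ i, Psi (c i) (primorial z) U (α i) +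
      (hz z (qU U) ^ (k * (d + 1)) - 1)) + k * (1 / ℓ ^ (k * (d + 1) + 1))) =
      ((1 + ε) * κ / ℓ) ^ (r * k) * ((X.choose r : ℝ) + T) + (powersetCard r D).card * (k * (1 / ℓ ^ (k * (d + 1) + 1))) := by
      rw [sum_add_distrib, sum_const, nsmul_eq_mul, hcop, hT, ← sum_add_distrib, mul_sum]
      congr 1
      apply sum_congr rfl
      intro U hU
      rw [(mem_powersetCard.1 hU).2]
    rw [h3] at h2
    refine h2.trans ?_
    have h4 : ((powersetCard r D).card : ℝ) * (k * (1 / ℓ ^ (k * (d + 1) + 1))) ≤ k * Λ ^ r / ℓ := by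
      refine le_trans ?_ hE
      gcongr
    apply add_le_add _ h4
    have e : (1 + ε) * κ / ℓ = (1 + ε) * (κ / ℓ) := by ring
    rw [e, mul_pow, mul_assoc ((1 + ε) ^ (r * k))]
    apply mul_le_mul_of_nonneg_left _ (by positivity)
    have h5 := choose_upper X r
    have h6 : (κ / ℓ) ^ (r * k) * (X.choose r : ℝ) ≤ (κ / ℓ) ^ (r * k) * ((X : ℝ) ^ r / r.factorial) := by gcongr
    calc (κ / ℓ) ^ (r * k) * ((X.choose r : ℝ) + T) = (κ / ℓ) ^ (r * k) * (X.choose r : ℝ) + (κ / ℓ) ^ (r * k) * T := by ring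
      _ ≤ (κ / ℓ) ^ (r * k) * ((X : ℝ) ^ r / r.factorial) + κ ^ (r * k) * (2 * C * Λ ^ r / z) := add_le_add h6 hTk
      _ = (κ / ℓ) ^ (r * k) * (X : ℝ) ^ r / r.factorial + κ ^ (r * k) * (2 * C * Λ ^ r / z) := by ring

end Pool.Agent.H11S
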