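import Mathlib
import Pool.Agent.H11S.Mom2
import Pool.Agent.H11P.Main

/-! The binomial moments for windows of any length: uniform error terms. -/

set_option autoImplicit false

namespace Pool.Agent.H11S

open Finset Filter Pool.Agent.H11P

variable {k d : ℕ}

theorem moments_rel (hSW : SWU) (k d : ℕ) (hk : 1 ≤ k) (ε : ℝ) (hε : 0 < ε) : ∃ z0 : ℕ, ∀ z ≥ z0, ∀ A : ℕ, ∃ H0 : ℕ, ∀ H ≥ H0,
    ∀ (c : Fin k → ℕ → ℤ) (α : Fin k → Fin (d + 1) → ℤ) (J L : ℕ) (D : Finset ℕ), D ⊆ Ioc J (J + L) →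
    ∀ Λ : ℝ, 1 ≤ Λ → (L : ℝ) ≤ Λ * Real.log H ^ k → ((J + L : ℕ) : ℝ) ≤ Real.log H ^ A →
    (∀ i, ∀ n ∈ D, |(c i n : ℝ)| ≤ H * Real.log H ^ A) → ∀ r ≤ d + 1,
    |(∑ a ∈ bxk H (primorial z) α, ((cntk c a D).choose r : ℝ)) / (bxk H (primorial z) α).card -
      ((kap (primorial z) / Real.log H) ^ k * copk c (primorial z) α D) ^ r / r.factorial| ≤ ε / kap (primorial z) ^ k * Λ ^ r := by
  obtain ⟨C, hC0, hC⟩ := sum_T k d
  obtain ⟨C1, hC10, hC1⟩ := kap_mertens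
  obtain ⟨R, hR⟩ : ∃ R, R = d + 1 := ⟨_, rfl⟩
  obtain ⟨N, hN⟩ : ∃ N, N = R * k := ⟨_, rfl⟩
  have hev := (ev_pow (N + k) (4 / ε * (2 ^ N * (k * R) * (2 * C) * C1 ^ (N + k))) 1 one_pos).exists_forall_of_atTop
  obtain ⟨z1, hz1⟩ := hev
  refine ⟨max z1 3, fun z hz A => ?_⟩
  have hz3 : 3 ≤ z := (le_max_right _ _).trans hz
  have hzz := hz1 z ((le_max_left _ _).trans hz)
  rw [Real.rpow_one] at hzz
  have hz0 : (0 : ℝ) < z := by exact_mod_cast (by omega : 0 < z)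
  have hκC := hC1 z hz3
  obtain ⟨κ, hκ⟩ : ∃ κ, κ = kap (primorial z) := ⟨_, rfl⟩
  have hκ1 : 1 ≤ κ := by rw [hκ]; exact kap_ge _ (primorial_pos z)
  rw [← hκ] at hκC
  have hκ0 : 0 < κ := by linarith
  have hkr : (1 : ℝ) ≤ k := by exact_mod_cast hk
  have hRr : (1 : ℝ) ≤ R := by rw [hR]; push_cast; have : (0 : ℝ) ≤ d := Nat.cast_nonneg _; linarith
  obtain ⟨e, he⟩ : ∃ e : ℝ, e = ε / κ ^ k := ⟨_, rfl⟩
  have he0 : 0 < e := by rw [he]; positivity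
  -- the main error
  obtain ⟨B, hB⟩ : ∃ B : ℝ, B = κ ^ N * (2 * C / z) := ⟨_, rfl⟩
  have hB0 : 0 ≤ B := by rw [hB]; positivity
  have hBe : 2 ^ N * (k * R) * B ≤ e / 4 := by
    have h1 : κ ^ (N + k) ≤ C1 ^ (N + k) * Real.log z ^ (N + k) := by
      rw [← mul_pow]
      gcongr
    have h2 : 2 ^ N * (k * R) * (κ ^ (N + k) * (2 * C / z)) ≤ 2 ^ N * (k * R) * ((C1 ^ (N + k) * Real.log z ^ (N + k)) * (2 * C / z)) := by
      gcongr
    have h3 : 2 ^ N * (k * R) * ((C1 ^ (N + k) * Real.log z ^ (N + k)) * (2 * C / z)) =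
        ε / 4 * ((4 / ε * (2 ^ N * (k * R) * (2 * C) * C1 ^ (N + k)) * Real.log z ^ (N + k)) / z) := by
      field_simp
    have h4 : (4 / ε * (2 ^ N * (k * R) * (2 * C) * C1 ^ (N + k)) * Real.log z ^ (N + k)) / z ≤ 1 := by
      rw [div_le_one hz0]; exact hzz
    have h5 : ε / 4 * ((4 / ε * (2 ^ N * (k * R) * (2 * C) * C1 ^ (N + k)) * Real.log z ^ (N + k)) / z) ≤ ε / 4 * 1 := by gcongr
    rw [hB, he]
    have h6 : 2 ^ N * (k * R) * (κ ^ N * (2 * C / z)) = (2 ^ N * (k * R) * (κ ^ (N + k) * (2 * C / z))) / κ ^ k := by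
      rw [pow_add]
      field_simp
    rw [h6, div_right_comm]
    gcongr
    linarith
  -- the choice of the small parameter
  obtain ⟨η, hη⟩ : ∃ η : ℝ, η = min (1 / 2) (e / (4 * 2 ^ N * κ ^ N)) := ⟨_, rfl⟩
  have hη0 : 0 < η := by rw [hη]; apply lt_min (by norm_num); positivity
  have hη1 : η ≤ 1 / 2 := by rw [hη]; exact min_le_left _ _
  have hηM : 2 ^ N * η * κ ^ N ≤ e / 4 := by
    have h1 : η ≤ e / (4 * 2 ^ N * κ ^ N) := by rw [hη]; exact min_le_right _ _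
    calc 2 ^ N * η * κ ^ N ≤ 2 ^ N * (e / (4 * 2 ^ N * κ ^ N)) * κ ^ N := by gcongr
      _ = e / 4 := by field_simp
  have hmb := mom_bounds2 (d := d) hSW hk A z (by omega) η hη0 hη1 C hC
  obtain ⟨H0, hH0⟩ := (hmb.and ((ev_log 1).and (ev_log (4 / e * ((R : ℝ) ^ 2 * κ ^ N + k))))).exists_forall_of_atTop
  refine ⟨H0, fun H hH c α J L D hD Λ hΛ hL hJL hc r hr => ?_⟩
  obtain ⟨hm, g1, g2⟩ := hH0 H hH
  obtain ⟨lo, up⟩ := hm c α J L D hD Λ hΛ hL hJL hc r hr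
  obtain ⟨ℓ, hℓ⟩ : ∃ ℓ : ℝ, ℓ = Real.log H := ⟨_, rfl⟩
  rw [← hℓ] at g1 g2 hL lo up ⊢
  rw [← hκ] at lo up ⊢
  rw [← he]
  have hℓ0 : 0 < ℓ := by linarith
  have hcardD : D.card ≤ L := by
    have := card_le_card hD
    rw [Nat.card_Ioc] at this
    omega
  obtain ⟨X, hX⟩ : ∃ X, X = copk c (primorial z) α D := ⟨_, rfl⟩
  have hXL : X ≤ L := by
    rw [hX]
    unfold copk
    exact (card_filter_le _ _).trans hcardD
  rw [← hX] at lo up ⊢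
  obtain ⟨μ, hμ⟩ : ∃ μ : ℝ, μ = (κ / ℓ) ^ k * X := ⟨_, rfl⟩
  rw [← hμ] at lo up ⊢
  have hμ0 : 0 ≤ μ := by rw [hμ]; positivity
  have hμM : μ ≤ κ ^ k * Λ := by
    have h1 : (X : ℝ) ≤ Λ * ℓ ^ k := by
      have : (X : ℝ) ≤ L := by exact_mod_cast hXL
      linarith
    rw [hμ]
    calc (κ / ℓ) ^ k * (X : ℝ) ≤ (κ / ℓ) ^ k * (Λ * ℓ ^ k) := by gcongr
      _ = κ ^ k * Λ := by rw [div_pow]; field_simp
  have hrR : r ≤ R := by rw [hR]; exact hr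
  have hrk : r * k ≤ N := by rw [hN]; exact Nat.mul_le_mul_right _ hrR
  obtain ⟨t, ht⟩ : ∃ t : ℝ, t = Λ ^ r := ⟨_, rfl⟩
  have ht1 : 1 ≤ t := by rw [ht]; exact one_le_pow₀ hΛ
  have ht0 : 0 < t := by linarith
  have hκr : κ ^ (r * k) ≤ κ ^ N := pow_le_pow_right₀ hκ1 hrk
  have hm0 : 0 ≤ μ ^ r / r.factorial := by positivity
  have hmM : μ ^ r / r.factorial ≤ κ ^ N * t := by
    have hf : (1 : ℝ) ≤ r.factorial := by exact_mod_cast Nat.factorial_pos r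
    calc μ ^ r / r.factorial ≤ μ ^ r := div_le_self (by positivity) hf
      _ ≤ (κ ^ k * Λ) ^ r := by gcongr
      _ = κ ^ (r * k) * Λ ^ r := by rw [mul_pow, ← pow_mul, mul_comm k r]
      _ ≤ κ ^ N * t := by rw [ht]; gcongr
  obtain ⟨m, hmm⟩ : ∃ m : ℝ, m = μ ^ r / r.factorial := ⟨_, rfl⟩
  rw [← hmm] at lo up hm0 hmM ⊢
  rw [← ht] at lo up ⊢
  -- the bounds for the errors
  have hBr : κ ^ (r * k) * (2 * C * t / z) ≤ B * t := by
    rw [hB]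
    calc κ ^ (r * k) * (2 * C * t / z) = κ ^ (r * k) * (2 * C / z) * t := by ring
      _ ≤ κ ^ N * (2 * C / z) * t := by gcongr
  have hBr0 : 0 ≤ κ ^ (r * k) * (2 * C * t / z) := by positivity
  have hp1 : (1 + η) ^ (r * k) ≤ 1 + 2 ^ N * η := by
    have h1 := pow_lin η hη0.le (by linarith) (r * k)
    have h2 : (2 : ℝ) ^ (r * k) ≤ 2 ^ N := pow_le_pow_right₀ (by norm_num) hrk
    have h3 : ((2 : ℝ) ^ (r * k) - 1) * η ≤ 2 ^ N * η := mul_le_mul_of_nonneg_right (by linarith) hη0.le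
    linarith
  have hp2 : (1 + η) ^ (r * k) ≤ 2 ^ N := by
    calc (1 + η) ^ (r * k) ≤ 2 ^ (r * k) := by
          apply pow_le_pow_left₀ (by linarith) (by linarith)
      _ ≤ 2 ^ N := pow_le_pow_right₀ (by norm_num) hrk
  have hp0 : 0 ≤ (1 + η) ^ (r * k) := by positivity
  have hq1 : 1 - 2 ^ N * η ≤ (1 - η) ^ (r * k) := by
    have h1 := one_add_mul_le_pow (show (-2 : ℝ) ≤ -η by linarith) (r * k)
    have e : 1 + -η = 1 - η := by ring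
    rw [e] at h1
    have h2 : ((r * k : ℕ) : ℝ) ≤ 2 ^ N := by
      have : r * k ≤ 2 ^ N := hrk.trans (Nat.lt_two_pow_self).le
      exact_mod_cast this
    have h3 : ((r * k : ℕ) : ℝ) * η ≤ 2 ^ N * η := mul_le_mul_of_nonneg_right h2 hη0.le
    linarith
  have hq2 : (1 - η) ^ (r * k) ≤ 1 := pow_le_one₀ (by linarith) (by linarith)
  have hq0 : 0 ≤ (1 - η) ^ (r * k) := pow_nonneg (by linarith) _
  have hmη : 2 ^ N * η * m ≤ e / 4 * t := by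
    calc 2 ^ N * η * m ≤ 2 ^ N * η * (κ ^ N * t) := by gcongr
      _ = 2 ^ N * η * κ ^ N * t := by ring
      _ ≤ e / 4 * t := by gcongr
  have hE1 : (r : ℝ) ^ 2 * κ ^ (r * k) * t / ℓ + k * t / ℓ ≤ e / 4 * t := by
    have hrr : (r : ℝ) ≤ R := by exact_mod_cast hrR
    rw [← add_div, div_le_iff₀ hℓ0]
    calc (r : ℝ) ^ 2 * κ ^ (r * k) * t + k * t ≤ (R : ℝ) ^ 2 * κ ^ N * t + k * t := by gcongr
      _ = e / 4 * t * (4 / e * ((R : ℝ) ^ 2 * κ ^ N + k)) := by field_simp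
      _ ≤ e / 4 * t * ℓ := by gcongr
  have hd : ((d : ℝ) + 1) = R := by rw [hR]; push_cast; ring
  rw [hd] at lo
  have hE2 : 0 ≤ (r : ℝ) ^ 2 * κ ^ (r * k) * t / ℓ := by positivity
  have hE3 : 0 ≤ k * t / ℓ := by positivity
  have h2N : (1 : ℝ) ≤ 2 ^ N := one_le_pow₀ (by norm_num)
  have hkRB : k * R * B ≤ 2 ^ N * (k * R) * B := by
    have : 0 ≤ (k : ℝ) * R * B := by positivity
    calc k * R * B = 1 * (k * R * B) := by ring
      _ ≤ 2 ^ N * (k * R * B) := by gcongr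
      _ = 2 ^ N * (k * R) * B := by ring
  have h2NB : 2 ^ N * B ≤ 2 ^ N * (k * R) * B := by
    have h1 : 1 ≤ (k : ℝ) * R := one_le_mm _ _ hkr hRr
    calc 2 ^ N * B = 2 ^ N * 1 * B := by ring
      _ ≤ 2 ^ N * (k * R) * B := by gcongr
  have hkRBt : k * R * (B * t) ≤ e / 4 * t := by
    calc k * R * (B * t) = (k * R * B) * t := by ring
      _ ≤ e / 4 * t := by gcongr; linarith
  have h2NBt : 2 ^ N * (B * t) ≤ e / 4 * t := by
    calc 2 ^ N * (B * t) = (2 ^ N * B) * t := by ring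
      _ ≤ e / 4 * t := by gcongr; linarith
  have het : 0 ≤ e * t := by positivity
  rw [abs_le]
  constructor
  · obtain ⟨F, hF⟩ : ∃ F : ℝ, F = (r : ℝ) ^ 2 * κ ^ (r * k) * t / ℓ + k * R * (κ ^ (r * k) * (2 * C * t / z)) := ⟨_, rfl⟩
    have hF0 : 0 ≤ F := by rw [hF]; positivity
    have e1 : m - (r : ℝ) ^ 2 * κ ^ (r * k) * t / ℓ - k * R * (κ ^ (r * k) * (2 * C * t / z)) = m - F := by rw [hF]; ring
    rw [e1] at lo
    have h1 : (1 - 2 ^ N * η) * m ≤ (1 - η) ^ (r * k) * m := by gcongr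
    have h2 : (1 - η) ^ (r * k) * F ≤ 1 * F := by gcongr
    have h3 : k * R * (κ ^ (r * k) * (2 * C * t / z)) ≤ k * R * (B * t) := by gcongr
    rw [mul_sub] at lo
    linarith
  · have h1 : (1 + η) ^ (r * k) * m ≤ (1 + 2 ^ N * η) * m := by gcongr
    have h2 : (1 + η) ^ (r * k) * (κ ^ (r * k) * (2 * C * t / z)) ≤ 2 ^ N * (B * t) := by gcongr
    rw [mul_add] at up
    linarith

end Pool.Agent.H11S
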