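import Mathlib
import Pool.Agent.H11S.Mom3

/-! Concentration of the number of the prime values in long windows. -/

set_option autoImplicit false

namespace Pool.Agent.H11S

open Finset Filter Pool.Agent.H11P

variable {k d : ℕ}

theorem sq_choose (n : ℕ) : (n : ℝ) ^ 2 = 2 * (n.choose 2 : ℝ) + n := by
  have h := Nat.choose_two_right n
  have h2 : n.choose 2 * 2 = n * (n - 1) := by
    rw [h]
    exact Nat.div_mul_cancel (Nat.even_mul_pred_self n).two_dvd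
  rcases n with _ | n
  · simp
  · have h3 : (((n + 1).choose 2 : ℕ) : ℝ) * 2 = ((n + 1 : ℕ) : ℝ) * n := by
      rw [Nat.add_sub_cancel] at h2
      exact_mod_cast h2
    push_cast at h3 ⊢
    nlinarith

/-- the second moment of the deviation, from the first two binomial moments -/
theorem second_moment {Ω : Type*} (S : Finset Ω) (N : Ω → ℕ) (μ e1 e2 : ℝ) (hμ : 0 ≤ μ) (hS : 0 < S.card)
    (h1 : |(∑ ω ∈ S, ((N ω).choose 1 : ℝ)) / S.card - μ ^ 1 / (1 : ℕ).factorial| ≤ e1)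
    (h2 : |(∑ ω ∈ S, ((N ω).choose 2 : ℝ)) / S.card - μ ^ 2 / (2 : ℕ).factorial| ≤ e2) :
    ∑ ω ∈ S, ((N ω : ℝ) - μ) ^ 2 ≤ (2 * e2 + μ + e1 + 2 * μ * e1) * S.card := by
  have hc : (0 : ℝ) < S.card := by exact_mod_cast hS
  have e : ∑ ω ∈ S, ((N ω : ℝ) - μ) ^ 2 = 2 * ∑ ω ∈ S, ((N ω).choose 2 : ℝ) + ∑ ω ∈ S, ((N ω).choose 1 : ℝ) -
      2 * μ * ∑ ω ∈ S, ((N ω).choose 1 : ℝ) + μ ^ 2 * S.card := by
    have e1 : ∀ ω ∈ S, ((N ω : ℝ) - μ) ^ 2 = 2 * ((N ω).choose 2 : ℝ) + ((N ω).choose 1 : ℝ) - 2 * μ * ((N ω).choose 1 : ℝ) + μ ^ 2 := by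
      intro ω _
      have := sq_choose (N ω)
      rw [Nat.choose_one_right]
      nlinarith
    rw [sum_congr rfl e1, sum_add_distrib, sum_sub_distrib, sum_add_distrib, ← mul_sum, ← mul_sum, sum_const, nsmul_eq_mul]
    ring
  rw [e]
  set A1 := ∑ ω ∈ S, ((N ω).choose 1 : ℝ)
  set A2 := ∑ ω ∈ S, ((N ω).choose 2 : ℝ)
  rw [abs_le] at h1 h2
  rw [show ((Nat.factorial 1 : ℕ) : ℝ) = 1 from by rw [Nat.factorial_one, Nat.cast_one]] at h1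
  rw [show ((Nat.factorial 2 : ℕ) : ℝ) = 2 from by rw [Nat.factorial_two, Nat.cast_ofNat]] at h2
  obtain ⟨B1, hB1⟩ : ∃ B1 : ℝ, B1 = A1 / S.card := ⟨_, rfl⟩
  obtain ⟨B2, hB2⟩ : ∃ B2 : ℝ, B2 = A2 / S.card := ⟨_, rfl⟩
  rw [← hB1] at h1
  rw [← hB2] at h2
  have g1 : A1 = B1 * S.card := by rw [hB1, div_mul_cancel₀ _ hc.ne']
  have g2 : A2 = B2 * S.card := by rw [hB2, div_mul_cancel₀ _ hc.ne']
  rw [g1, g2]
  have h3 : μ * (μ - B1) ≤ μ * e1 := by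
    apply mul_le_mul_of_nonneg_left _ hμ
    linarith
  have h4 : 2 * B2 + B1 - 2 * μ * B1 + μ ^ 2 ≤ 2 * e2 + μ + e1 + 2 * μ * e1 := by nlinarith
  calc 2 * (B2 * S.card) + B1 * S.card - 2 * μ * (B1 * S.card) + μ ^ 2 * S.card
      = (2 * B2 + B1 - 2 * μ * B1 + μ ^ 2) * S.card := by ring
    _ ≤ (2 * e2 + μ + e1 + 2 * μ * e1) * S.card := mul_le_mul_of_nonneg_right h4 hc.le

theorem chebyshev {Ω : Type*} (S : Finset Ω) (f : Ω → ℝ) (t V : ℝ) (ht : 0 < t) (h : ∑ ω ∈ S, f ω ^ 2 ≤ V) :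
    ((S.filter (fun ω => t < |f ω|)).card : ℝ) ≤ V / t ^ 2 := by
  rw [le_div_iff₀ (by positivity), ← nsmul_eq_mul, ← sum_const]
  refine le_trans (sum_le_sum (g := fun ω => f ω ^ 2) ?_) (le_trans (sum_le_sum_of_subset_of_nonneg (filter_subset _ _) (fun _ _ _ => sq_nonneg _)) h)
  intro ω hω
  rw [mem_filter] at hω
  rw [← sq_abs (f ω)]
  have := hω.2
  gcongr

theorem conc (hSW : SWU) (k d : ℕ) (hk : 1 ≤ k) (hd : 1 ≤ d) (ε₁ ε₂ : ℝ) (h1 : 0 < ε₁) (h2 : 0 < ε₂) : ∃ z0 : ℕ, ∀ z ≥ z0, ∀ A : ℕ, ∃ H0 : ℕ, ∀ H ≥ H0,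
    ∀ (c : Fin k → ℕ → ℤ) (α : Fin k → Fin (d + 1) → ℤ) (J L : ℕ), Real.log H ^ (k + 1) ≤ L → ((J + L : ℕ) : ℝ) ≤ Real.log H ^ A →
    (∀ i, ∀ n ∈ Ioc J (J + L), |(c i n : ℝ)| ≤ H * Real.log H ^ A) →
    (((bxk H (primorial z) α).filter (fun a => ε₁ * (L / Real.log H ^ k) <
      |(cntk c a (Ioc J (J + L)) : ℝ) - (kap (primorial z) / Real.log H) ^ k * copk c (primorial z) α (Ioc J (J + L))|)).card : ℝ) ≤
      ε₂ * (bxk H (primorial z) α).card := by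
  obtain ⟨ε, hε⟩ : ∃ ε : ℝ, ε = ε₂ * ε₁ ^ 2 / 6 := ⟨_, rfl⟩
  have hε0 : 0 < ε := by rw [hε]; positivity
  obtain ⟨z0, h0⟩ := moments_rel hSW k d hk ε hε0
  refine ⟨z0, fun z hz A => ?_⟩
  obtain ⟨H0, hH0⟩ := h0 z hz A
  obtain ⟨κ, hκ⟩ : ∃ κ, κ = kap (primorial z) := ⟨_, rfl⟩
  have hκ1 : 1 ≤ κ := by rw [hκ]; exact kap_ge _ (primorial_pos z)
  rw [← hκ] at hH0 ⊢
  obtain ⟨H1, hH1⟩ := ((ev_log 1).and ((ev_log (κ ^ k / ε)).and (eventually_ge_atTop (primorial z)))).exists_forall_of_atTop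
  refine ⟨max H0 H1, fun H hH c α J L hL hJL hc => ?_⟩
  obtain ⟨g1, g2, g3⟩ := hH1 H ((le_max_right _ _).trans hH)
  have hm := hH0 H ((le_max_left _ _).trans hH) c α J L (Ioc J (J + L)) (Subset.refl _)
  obtain ⟨ℓ, hℓ⟩ : ∃ ℓ : ℝ, ℓ = Real.log H := ⟨_, rfl⟩
  rw [← hℓ] at g1 g2 hm hL hJL hc ⊢
  have hℓ0 : 0 < ℓ := by linarith
  obtain ⟨Λ, hΛ⟩ : ∃ Λ : ℝ, Λ = L / ℓ ^ k := ⟨_, rfl⟩
  have hΛℓ : ℓ ≤ Λ := by
    rw [hΛ, le_div_iff₀ (by positivity)]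
    calc ℓ * ℓ ^ k = ℓ ^ (k + 1) := by ring
      _ ≤ L := hL
  have hΛ1 : 1 ≤ Λ := by linarith
  have hLΛ : (L : ℝ) ≤ Λ * ℓ ^ k := by rw [hΛ]; apply le_of_eq; field_simp
  have m1 := hm Λ hΛ1 hLΛ hJL hc 1 (by omega)
  have m2 := hm Λ hΛ1 hLΛ hJL hc 2 (by omega)
  obtain ⟨μ, hμ⟩ : ∃ μ : ℝ, μ = (κ / ℓ) ^ k * copk c (primorial z) α (Ioc J (J + L)) := ⟨_, rfl⟩
  rw [← hμ] at m1 m2 ⊢
  have hμ0 : 0 ≤ μ := by rw [hμ]; positivity
  have hμM : μ ≤ κ ^ k * Λ := by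
    have hX : (copk c (primorial z) α (Ioc J (J + L)) : ℝ) ≤ Λ * ℓ ^ k := by
      refine le_trans ?_ hLΛ
      have : copk c (primorial z) α (Ioc J (J + L)) ≤ L := by
        unfold copk
        refine (card_filter_le _ _).trans ?_
        rw [Nat.card_Ioc]
        omega
      exact_mod_cast this
    rw [hμ]
    calc (κ / ℓ) ^ k * _ ≤ (κ / ℓ) ^ k * (Λ * ℓ ^ k) := by gcongr
      _ = κ ^ k * Λ := by rw [div_pow]; field_simp
  have hcard : 0 < (bxk H (primorial z) α).card := by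
    rw [card_pos]
    unfold bxk
    rw [Fintype.piFinset_nonempty]
    intro i
    exact bx_nonempty H (primorial z) (α i) (primorial_pos z) g3
  have hsm := second_moment (bxk H (primorial z) α) (fun a => cntk c a (Ioc J (J + L))) μ _ _ hμ0 hcard m1 m2
  have hκk1 : 1 ≤ κ ^ k := one_le_pow₀ hκ1
  have hεκ : ε / κ ^ k ≤ ε := div_le_self hε0.le hκk1
  have hV : 2 * (ε / κ ^ k * Λ ^ 2) + μ + ε / κ ^ k * Λ ^ 1 + 2 * μ * (ε / κ ^ k * Λ ^ 1) ≤ 6 * ε * Λ ^ 2 := by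
    have e1 : ε / κ ^ k * Λ ^ 2 ≤ ε * Λ ^ 2 := by gcongr
    have e2 : μ ≤ ε * Λ ^ 2 := by
      have : κ ^ k ≤ ε * Λ := by
        rw [div_le_iff₀ hε0] at g2
        calc κ ^ k ≤ ℓ * ε := g2
          _ ≤ Λ * ε := by gcongr
          _ = ε * Λ := by ring
      calc μ ≤ κ ^ k * Λ := hμM
        _ ≤ (ε * Λ) * Λ := by gcongr
        _ = ε * Λ ^ 2 := by ring
    have e3 : ε / κ ^ k * Λ ^ 1 ≤ ε * Λ ^ 2 := by
      have : Λ ^ 1 ≤ Λ ^ 2 := pow_le_pow_right₀ hΛ1 (by norm_num)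
      gcongr
    have e4 : 2 * μ * (ε / κ ^ k * Λ ^ 1) ≤ 2 * (ε * Λ ^ 2) := by
      calc 2 * μ * (ε / κ ^ k * Λ ^ 1) ≤ 2 * (κ ^ k * Λ) * (ε / κ ^ k * Λ ^ 1) := by gcongr
        _ = 2 * (ε * Λ ^ 2) := by
            have : κ ^ k ≠ 0 := by positivity
            field_simp
    linarith
  have hch := chebyshev (bxk H (primorial z) α) (fun a => (cntk c a (Ioc J (J + L)) : ℝ) - μ) (ε₁ * Λ) (6 * ε * Λ ^ 2 * (bxk H (primorial z) α).card)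
    (by positivity) (hsm.trans (by gcongr))
  rw [← hΛ]
  refine hch.trans (le_of_eq ?_)
  rw [hε]
  field_simp

/-- from the residue classes to the full box -/
theorem class_sum (H W : ℕ) (hW : 1 ≤ W) (Q : (Fin k → Fin (d + 1) → ℤ) → Prop) [DecidablePred Q] (ε : ℝ)
    (h : ∀ α, (((bxk H W α).filter Q).card : ℝ) ≤ ε * (bxk H W α).card) :
    (((bxk H 1 (fun (_ : Fin k) (_ : Fin (d + 1)) => (0 : ℤ))).filter Q).card : ℝ) ≤ ε * (bxk H 1 (fun (_ : Fin k) (_ : Fin (d + 1)) => (0 : ℤ))).card := by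
  classical
  obtain ⟨F, hF⟩ : ∃ F, F = bxk H 1 (fun (_ : Fin k) (_ : Fin (d + 1)) => (0 : ℤ)) := ⟨_, rfl⟩
  rw [← hF]
  obtain ⟨T, hT⟩ : ∃ T : Finset (Fin k → Fin (d + 1) → ℤ), T = Fintype.piFinset (fun _ => Fintype.piFinset (fun _ => Ico (0 : ℤ) W)) := ⟨_, rfl⟩
  have hW0 : (0 : ℤ) < W := by exact_mod_cast hW
  have hmap : ∀ a ∈ F, (fun i l => a i l % (W : ℤ)) ∈ T := by
    intro a _
    rw [hT, Fintype.mem_piFinset]
    intro i
    rw [Fintype.mem_piFinset]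
    intro l
    rw [mem_Ico]
    exact ⟨Int.emod_nonneg _ hW0.ne', Int.emod_lt_of_pos _ hW0⟩
  have hfib : ∀ α ∈ T, F.filter (fun a => (fun i l => a i l % (W : ℤ)) = α) = bxk H W α := by
    intro α hα
    rw [hT, Fintype.mem_piFinset] at hα
    ext a
    rw [mem_filter, hF]
    unfold bxk bx cls
    simp only [Fintype.mem_piFinset, mem_filter, mem_Icc]
    constructor
    · rintro ⟨h1, h2⟩ i l
      refine ⟨(h1 i l).1, ?_⟩
      have := congrFun (congrFun h2 i) l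
      rw [← this]
      exact (Int.mod_modEq _ _).symm
    · intro h1
      refine ⟨fun i l => ⟨(h1 i l).1, by simp [Int.modEq_one]⟩, ?_⟩
      funext i l
      have h3 := hα i
      rw [Fintype.mem_piFinset] at h3
      have h4 := h3 l
      rw [mem_Ico] at h4
      have h5 := (h1 i l).2
      unfold Int.ModEq at h5
      rw [h5, Int.emod_eq_of_lt h4.1 h4.2]
  have e1 : ((F.filter Q).card : ℝ) = ∑ α ∈ T, (((bxk H W α).filter Q).card : ℝ) := by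
    rw [card_eq_sum_card_fiberwise (f := fun a : Fin k → Fin (d + 1) → ℤ => (fun i l => a i l % (W : ℤ))) (t := T) (fun a ha => hmap a (mem_filter.1 ha).1)]
    push_cast
    apply sum_congr rfl
    intro α hα
    rw [← hfib α hα, filter_comm]
  have e2 : (F.card : ℝ) = ∑ α ∈ T, ((bxk H W α).card : ℝ) := by
    rw [card_eq_sum_card_fiberwise (f := fun a : Fin k → Fin (d + 1) → ℤ => (fun i l => a i l % (W : ℤ))) (t := T) (fun a ha => hmap a ha)]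
    push_cast
    apply sum_congr rfl
    intro α hα
    rw [← hfib α hα]
  rw [e1, e2, mul_sum]
  exact sum_le_sum fun α _ => h α

end Pool.Agent.H11S
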