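import Mathlib
import Pool.Agent.H11P.Sys

/-! Few arrays have a large prime dividing two coefficients. -/

set_option autoImplicit false

namespace Pool.Agent.H11S

open Finset Filter Pool.Agent.H11P

variable {k d : ℕ}

theorem one_class (H p : ℕ) (hp : 1 ≤ p) (c : ℤ) :
    (((Icc (-(H : ℤ)) H).filter (fun x => (p : ℤ) ∣ c + x)).card : ℝ) ≤ (2 * H + 1 : ℝ) / p + 1 := by
  have h1 := (count_mod (-(H : ℤ) - 1) H (-c) p hp (by omega)).1
  have e : Ioc (-(H : ℤ) - 1) H = Icc (-(H : ℤ)) H := by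
    ext x; simp only [mem_Ioc, mem_Icc]; omega
  rw [e] at h1
  have e2 : (Icc (-(H : ℤ)) H).filter (fun x => (p : ℤ) ∣ c + x) = (Icc (-(H : ℤ)) H).filter (fun x => x ≡ -c [ZMOD p]) := by
    apply filter_congr
    intro x _
    rw [Int.modEq_iff_dvd, show -c - x = -(c + x) by ring, dvd_neg]
  rw [e2]
  refine h1.trans (le_of_eq ?_)
  push_cast
  ring

open Classical in
theorem pairs_bd (H p₀ : ℕ) (hp0 : 1 ≤ p₀) (c1 c2 : ℤ) (hc1 : |c1| + H < (2 * H + 1) ^ 2) :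
    (((Icc (-(H : ℤ)) H ×ˢ Icc (-(H : ℤ)) H).filter (fun xy : ℤ × ℤ => ∃ p : ℕ, p.Prime ∧ p₀ < p ∧ (p : ℤ) ∣ c1 + xy.1 ∧ (p : ℤ) ∣ c2 + xy.2)).card : ℝ) ≤
      4 / p₀ * (2 * H + 1) ^ 2 + 2 * (2 * H + 1) := by
  classical
  obtain ⟨I, hI⟩ : ∃ I, I = Icc (-(H : ℤ)) H := ⟨_, rfl⟩
  rw [← hI]
  obtain ⟨N, hN⟩ : ∃ N : ℕ, N = 2 * H + 1 := ⟨_, rfl⟩
  have hNr : (N : ℝ) = 2 * H + 1 := by rw [hN]; push_cast; ring
  have hIc : I.card = N := by rw [hI, Int.card_Icc, hN]; omega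
  rw [← hNr]
  -- the three parts
  obtain ⟨S1, hS1⟩ : ∃ S1, S1 = ((Ioc p₀ N).filter Nat.Prime).biUnion (fun p => (I.filter (fun x => (p : ℤ) ∣ c1 + x)) ×ˢ (I.filter (fun x => (p : ℤ) ∣ c2 + x))) := ⟨_, rfl⟩
  obtain ⟨S2, hS2⟩ : ∃ S2 : Finset (ℤ × ℤ), S2 = ({-c1} : Finset ℤ) ×ˢ I := ⟨_, rfl⟩
  obtain ⟨S3, hS3⟩ : ∃ S3, S3 = (I ×ˢ I).filter (fun xy : ℤ × ℤ => c1 + xy.1 ≠ 0 ∧ ∃ p : ℕ, p.Prime ∧ N < p ∧ (p : ℤ) ∣ c1 + xy.1 ∧ (p : ℤ) ∣ c2 + xy.2) := ⟨_, rfl⟩
  have hsub : (I ×ˢ I).filter (fun xy : ℤ × ℤ => ∃ p : ℕ, p.Prime ∧ p₀ < p ∧ (p : ℤ) ∣ c1 + xy.1 ∧ (p : ℤ) ∣ c2 + xy.2) ⊆ S1 ∪ (S2 ∪ S3) := by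
    intro xy h
    rw [mem_filter, mem_product] at h
    obtain ⟨⟨hx, hy⟩, p, hp, hpp, h1, h2⟩ := h
    rw [mem_union, mem_union]
    rcases le_or_gt p N with hpN | hpN
    · left
      rw [hS1, mem_biUnion]
      refine ⟨p, ?_, ?_⟩
      · rw [mem_filter, mem_Ioc]
        exact ⟨⟨hpp, hpN⟩, hp⟩
      · rw [mem_product, mem_filter, mem_filter]
        exact ⟨⟨hx, h1⟩, hy, h2⟩
    · right
      by_cases h0 : c1 + xy.1 = 0
      · left
        rw [hS2, mem_product, mem_singleton]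
        exact ⟨by omega, hy⟩
      · right
        rw [hS3, mem_filter, mem_product]
        exact ⟨⟨hx, hy⟩, h0, p, hp, hpN, h1, h2⟩
  have b1 : (S1.card : ℝ) ≤ 4 / p₀ * N ^ 2 := by
    have h1 : (S1.card : ℝ) ≤ ∑ p ∈ (Ioc p₀ N).filter Nat.Prime, (4 * (N : ℝ) ^ 2) * ((p : ℝ) ^ 2)⁻¹ := by
      have h2 : (S1.card : ℝ) ≤ ∑ p ∈ (Ioc p₀ N).filter Nat.Prime, (((I.filter (fun x => (p : ℤ) ∣ c1 + x)) ×ˢ (I.filter (fun x => (p : ℤ) ∣ c2 + x))).card : ℝ) := by
        rw [hS1]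
        exact_mod_cast card_biUnion_le
      refine h2.trans (sum_le_sum fun p hp => ?_)
      rw [mem_filter, mem_Ioc] at hp
      have hp1 : (0 : ℝ) < p := by exact_mod_cast hp.2.pos
      have hpN : (p : ℝ) ≤ N := by exact_mod_cast hp.1.2
      have h3 : ∀ c : ℤ, ((I.filter (fun x => (p : ℤ) ∣ c + x)).card : ℝ) ≤ 2 * N / p := by
        intro c
        have := one_class H p hp.2.pos c
        rw [← hI, ← hNr] at this
        refine this.trans ?_
        have : (1 : ℝ) ≤ N / p := by rw [le_div_iff₀ hp1]; linarith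
        have e : 2 * (N : ℝ) / p = N / p + N / p := by ring
        linarith
      rw [card_product]
      push_cast
      calc ((I.filter (fun x => (p : ℤ) ∣ c1 + x)).card : ℝ) * ((I.filter (fun x => (p : ℤ) ∣ c2 + x)).card : ℝ) ≤ (2 * N / p) * (2 * N / p) :=
            mul_le_mul (h3 c1) (h3 c2) (Nat.cast_nonneg _) (by positivity)
        _ = (4 * (N : ℝ) ^ 2) * ((p : ℝ) ^ 2)⁻¹ := by field_simp; ring
    refine h1.trans ?_
    rw [← mul_sum]
    have h2 : ∑ p ∈ (Ioc p₀ N).filter Nat.Prime, ((p : ℝ) ^ 2)⁻¹ ≤ (p₀ : ℝ)⁻¹ := by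
      rcases le_or_gt p₀ N with h | h
      · refine (sum_le_sum_of_subset_of_nonneg (filter_subset _ _) (fun _ _ _ => by positivity)).trans ?_
        refine (sum_Ioc_inv_sq_le_sub (by omega : p₀ ≠ 0) h).trans ?_
        have : (0 : ℝ) ≤ (N : ℝ)⁻¹ := by positivity
        linarith
      · rw [Ioc_eq_empty (by omega), filter_empty, sum_empty]
        positivity
    refine (mul_le_mul_of_nonneg_left h2 (by positivity)).trans (le_of_eq ?_)
    rw [div_eq_mul_inv]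
    ring
  have b2 : (S2.card : ℝ) ≤ N := by
    rw [hS2, card_product, card_singleton, one_mul, hIc]
  have b3 : (S3.card : ℝ) ≤ N := by
    rw [← hIc, Nat.cast_le]
    apply card_le_card_of_injOn (fun xy => xy.1)
    · intro xy h
      rw [mem_coe, hS3, mem_filter, mem_product] at h
      exact h.1.1
    · intro xy h xy' h' he
      rw [mem_coe, hS3, mem_filter, mem_product] at h h'
      simp only at he
      obtain ⟨⟨hx, hy⟩, h0, p, hp, hpN, h1, h2⟩ := h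
      obtain ⟨⟨hx', hy'⟩, h0', p', hp', hpN', h1', h2'⟩ := h'
      rw [← he] at h1'
      rw [hI, mem_Icc] at hx hy hy'
      have hpe : p = p' := by
        by_contra hne
        have hco : IsCoprime (p : ℤ) (p' : ℤ) := by
          rw [Int.isCoprime_iff_gcd_eq_one, Int.gcd_natCast_natCast]
          exact (Nat.coprime_primes hp hp').2 hne
        have h3 : (p : ℤ) * p' ∣ c1 + xy.1 := hco.mul_dvd h1 h1'
        have h4 := Int.le_of_dvd (abs_pos.2 h0) ((dvd_abs _ _).2 h3)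
        have h5 : |c1 + xy.1| ≤ |c1| + H := by
          refine (abs_add_le _ _).trans ?_
          have : |xy.1| ≤ H := abs_le.2 ⟨hx.1, hx.2⟩
          linarith
        have h6 : ((2 * H + 1 : ℕ) : ℤ) ^ 2 ≤ p * p' := by
          rw [pow_two]
          have g1 : ((2 * H + 1 : ℕ) : ℤ) ≤ p := by exact_mod_cast (by omega : 2 * H + 1 ≤ p)
          have g2 : ((2 * H + 1 : ℕ) : ℤ) ≤ p' := by exact_mod_cast (by omega : 2 * H + 1 ≤ p')
          exact mul_le_mul g1 g2 (by positivity) (by positivity)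
        push_cast at h6
        linarith
      rw [← hpe] at h2'
      have h7 : (p : ℤ) ∣ xy.2 - xy'.2 := by
        have := dvd_sub h2 h2'
        have e : c2 + xy.2 - (c2 + xy'.2) = xy.2 - xy'.2 := by ring
        rwa [e] at this
      have h8 : |xy.2 - xy'.2| < p := by
        rw [abs_lt]
        constructor <;> omega
      have h9 := Int.eq_zero_of_abs_lt_dvd h7 h8
      exact Prod.ext he (by omega)
  have h4 : (((I ×ˢ I).filter (fun xy : ℤ × ℤ => ∃ p : ℕ, p.Prime ∧ p₀ < p ∧ (p : ℤ) ∣ c1 + xy.1 ∧ (p : ℤ) ∣ c2 + xy.2)).card : ℝ) ≤ S1.card + (S2.card + S3.card) := by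
    exact_mod_cast (card_le_card hsub).trans ((card_union_le _ _).trans (Nat.add_le_add_left (card_union_le _ _) _))
  linarith

/-- the fraction of a box defined by two coordinates -/
theorem two_coord (I : Finset ℤ) (l : Fin k) (j1 j2 : Fin (d + 1)) (hj : j1 ≠ j2) (Q : ℤ × ℤ → Prop) [DecidablePred Q] :
    (((Fintype.piFinset fun (_ : Fin k) => Fintype.piFinset fun (_ : Fin (d + 1)) => I).filter (fun a => Q (a l j1, a l j2))).card : ℝ) * I.card ^ 2 =
      (((I ×ˢ I).filter Q).card : ℝ) * ((Fintype.piFinset fun (_ : Fin k) => Fintype.piFinset fun (_ : Fin (d + 1)) => I).card : ℝ) := by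
  classical
  obtain ⟨F, hF⟩ : ∃ F, F = (Fintype.piFinset fun (_ : Fin k) => Fintype.piFinset fun (_ : Fin (d + 1)) => I) := ⟨_, rfl⟩
  rw [← hF]
  have hfib : ∀ xy ∈ I ×ˢ I, ((F.filter (fun a => (a l j1, a l j2) = xy)).card : ℝ) * I.card ^ 2 = F.card := by
    rintro ⟨x, y⟩ hxy
    rw [mem_product] at hxy
    have e : F.filter (fun a => (a l j1, a l j2) = (x, y)) =
        Fintype.piFinset (fun i => Fintype.piFinset (fun j => if i = l ∧ j = j1 then {x} else if i = l ∧ j = j2 then {y} else I)) := by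
      ext a
      rw [mem_filter, hF]
      simp only [Fintype.mem_piFinset, Prod.mk.injEq]
      constructor
      · rintro ⟨h1, h2, h3⟩ i j
        split_ifs with g1 g2
        · rw [g1.1, g1.2, mem_singleton]; exact h2
        · rw [g2.1, g2.2, mem_singleton]; exact h3
        · exact h1 i j
      · intro h
        have h2 := h l j1
        rw [if_pos ⟨rfl, rfl⟩, mem_singleton] at h2
        have h3 := h l j2
        rw [if_neg (fun hh => hj hh.2.symm), if_pos ⟨rfl, rfl⟩, mem_singleton] at h3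
        refine ⟨fun i j => ?_, h2, h3⟩
        have h4 := h i j
        split_ifs at h4 with g1 g2
        · rw [mem_singleton] at h4; rw [h4]; exact hxy.1
        · rw [mem_singleton] at h4; rw [h4]; exact hxy.2
        · exact h4
    rw [e, hF, Fintype.card_piFinset, Fintype.card_piFinset]
    simp_rw [Fintype.card_piFinset]
    have e1 : ∀ i j, (if i = l ∧ j = j1 then ({x} : Finset ℤ) else if i = l ∧ j = j2 then {y} else I).card =
        if i = l ∧ j = j1 then 1 else if i = l ∧ j = j2 then 1 else I.card := by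
      intro i j
      split_ifs <;> simp
    simp_rw [e1]
    rw [← mul_prod_erase univ _ (mem_univ l), ← mul_prod_erase univ (fun i : Fin k => ∏ _j : Fin (d + 1), I.card) (mem_univ l)]
    have e2 : ∏ i ∈ univ.erase l, ∏ j : Fin (d + 1), (if i = l ∧ j = j1 then 1 else if i = l ∧ j = j2 then 1 else I.card) =
        ∏ i ∈ (univ : Finset (Fin k)).erase l, ∏ j : Fin (d + 1), I.card := by
      apply prod_congr rfl
      intro i hi
      apply prod_congr rfl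
      intro j _
      have := ne_of_mem_erase hi
      rw [if_neg (fun h => this h.1), if_neg (fun h => this h.1)]
    rw [e2]
    have e3 : (∏ j : Fin (d + 1), (if l = l ∧ j = j1 then 1 else if l = l ∧ j = j2 then 1 else I.card)) * I.card ^ 2 = ∏ j : Fin (d + 1), I.card := by
      rw [← mul_prod_erase univ _ (mem_univ j1), ← mul_prod_erase univ (fun _ : Fin (d + 1) => I.card) (mem_univ j1)]
      have hj2 : j2 ∈ (univ : Finset (Fin (d + 1))).erase j1 := mem_erase.2 ⟨hj.symm, mem_univ _⟩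
      rw [← mul_prod_erase _ _ hj2, ← mul_prod_erase _ (fun _ : Fin (d + 1) => I.card) hj2]
      rw [if_pos ⟨rfl, rfl⟩, if_neg (fun hh => hj hh.2.symm), if_pos ⟨rfl, rfl⟩]
      have e4 : ∏ j ∈ (univ.erase j1).erase j2, (if l = l ∧ j = j1 then 1 else if l = l ∧ j = j2 then 1 else I.card) =
          ∏ j ∈ ((univ : Finset (Fin (d + 1))).erase j1).erase j2, I.card := by
        apply prod_congr rfl
        intro j hj'
        rw [mem_erase, mem_erase] at hj'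
        rw [if_neg (fun h => hj'.2.1 h.2), if_neg (fun h => hj'.1 h.2)]
      rw [e4]
      ring
    push_cast
    have e3' := congrArg (fun n : ℕ => (n : ℝ)) e3
    push_cast at e3'
    rw [← e3']
    ring
  have h1 : F.filter (fun a => Q (a l j1, a l j2)) = ((I ×ˢ I).filter Q).biUnion (fun xy => F.filter (fun a => (a l j1, a l j2) = xy)) := by
    ext a
    rw [mem_filter, mem_biUnion]
    constructor
    · rintro ⟨h1, h2⟩
      refine ⟨(a l j1, a l j2), ?_, ?_⟩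
      · rw [mem_filter, mem_product]
        rw [hF, Fintype.mem_piFinset] at h1
        have := Fintype.mem_piFinset.1 (h1 l)
        exact ⟨⟨this j1, this j2⟩, h2⟩
      · rw [mem_filter]; exact ⟨h1, rfl⟩
    · rintro ⟨xy, h1, h2⟩
      rw [mem_filter] at h1 h2
      exact ⟨h2.1, by rw [h2.2]; exact h1.2⟩
  have h2 : ((F.filter (fun a => Q (a l j1, a l j2))).card : ℝ) = ∑ xy ∈ (I ×ˢ I).filter Q, ((F.filter (fun a => (a l j1, a l j2) = xy)).card : ℝ) := by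
    rw [h1, card_biUnion]
    · push_cast; rfl
    · intro xy _ xy' _ hne
      rw [Function.onFun, disjoint_left]
      intro a ha ha'
      rw [mem_filter] at ha ha'
      exact hne (ha.2.symm.trans ha'.2)
  rw [h2, sum_mul, sum_congr rfl (fun xy hxy => hfib xy (mem_filter.1 hxy).1), sum_const, nsmul_eq_mul]

open Classical in
/-- few arrays have a large prime dividing the coefficients of `x` and `x²` -/
theorem cont (k d : ℕ) (hd : 2 ≤ d) (ε : ℝ) (hε : 0 < ε) : ∃ p₀ : ℕ, ∀ A : ℕ, ∀ᶠ H : ℕ in atTop,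
    ∀ c1 c2 : Fin k → ℤ, (∀ i, |(c1 i : ℝ)| ≤ H * Real.log H ^ A) →
    (((Fintype.piFinset fun (_ : Fin k) => Fintype.piFinset fun (_ : Fin (d + 1)) => Icc (-(H : ℤ)) H).filter (fun a : Fin k → Fin (d + 1) → ℤ => ∃ i, ∃ p : ℕ, p.Prime ∧ p₀ < p ∧
      (p : ℤ) ∣ c1 i + a i ⟨1, by omega⟩ ∧ (p : ℤ) ∣ c2 i + a i ⟨2, by omega⟩)).card : ℝ) ≤
      ε * ((Fintype.piFinset fun (_ : Fin k) => Fintype.piFinset fun (_ : Fin (d + 1)) => Icc (-(H : ℤ)) H).card : ℝ) := by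
  classical
  obtain ⟨p₀, hp₀⟩ : ∃ p₀ : ℕ, 8 * k / ε ≤ p₀ ∧ 1 ≤ p₀ := by
    obtain ⟨n, hn⟩ := exists_nat_ge (8 * k / ε)
    exact ⟨n + 1, by push_cast; linarith, by omega⟩
  refine ⟨p₀, fun A => ?_⟩
  have hlog : ∀ᶠ H : ℕ in atTop, Real.log H ^ A ≤ H := by
    have h1 := (Real.isLittleO_pow_log_id_atTop (n := A)).bound (show (0 : ℝ) < 1 by norm_num)
    have h2 := tendsto_natCast_atTop_atTop (R := ℝ) |>.eventually h1
    filter_upwards [h2, eventually_ge_atTop 1] with H h h1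
    rw [Real.norm_eq_abs, Real.norm_eq_abs, one_mul, id, abs_of_nonneg (Nat.cast_nonneg (α := ℝ) H)] at h
    exact (le_abs_self _).trans h
  filter_upwards [hlog, eventually_ge_atTop ⌈4 * k / ε⌉₊, eventually_ge_atTop 1] with H g1 g2 g3
  intro c1 c2 hc1
  obtain ⟨F, hF⟩ : ∃ F, F = (Fintype.piFinset fun (_ : Fin k) => Fintype.piFinset fun (_ : Fin (d + 1)) => Icc (-(H : ℤ)) H) := ⟨_, rfl⟩
  have hone : ∀ i : Fin k, ((F.filter (fun a : Fin k → Fin (d + 1) → ℤ => ∃ p : ℕ, p.Prime ∧ p₀ < p ∧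
      (p : ℤ) ∣ c1 i + a i ⟨1, by omega⟩ ∧ (p : ℤ) ∣ c2 i + a i ⟨2, by omega⟩)).card : ℝ) ≤ (4 / p₀ + 2 / (2 * H + 1)) * F.card := by
    intro i
    have h1 := two_coord (k := k) (d := d) (Icc (-(H : ℤ)) H) i ⟨1, by omega⟩ ⟨2, by omega⟩ (by
      intro h; rw [Fin.mk.injEq] at h; omega) (fun xy : ℤ × ℤ => ∃ p : ℕ, p.Prime ∧ p₀ < p ∧ (p : ℤ) ∣ c1 i + xy.1 ∧ (p : ℤ) ∣ c2 i + xy.2)
    rw [← hF] at h1
    have hcard : ((Icc (-(H : ℤ)) H).card : ℝ) = 2 * H + 1 := by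
      have : (Icc (-(H : ℤ)) H).card = 2 * H + 1 := by rw [Int.card_Icc]; omega
      rw [this]; push_cast; ring
    rw [hcard] at h1
    have h2 := pairs_bd H p₀ hp₀.2 (c1 i) (c2 i) (by
      have h3 := hc1 i
      have h4 : |(c1 i : ℝ)| ≤ H * H := h3.trans (by gcongr)
      have h5 : |c1 i| ≤ (H : ℤ) * H := by exact_mod_cast h4
      have : (0 : ℤ) ≤ H := Int.natCast_nonneg H
      nlinarith)
    have h6 : (0 : ℝ) < (2 * H + 1) ^ 2 := by positivity
    have h7 : ((F.filter (fun a : Fin k → Fin (d + 1) → ℤ => ∃ p : ℕ, p.Prime ∧ p₀ < p ∧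
      (p : ℤ) ∣ c1 i + a i ⟨1, by omega⟩ ∧ (p : ℤ) ∣ c2 i + a i ⟨2, by omega⟩)).card : ℝ) * (2 * H + 1) ^ 2 ≤
        (4 / p₀ * (2 * H + 1) ^ 2 + 2 * (2 * H + 1)) * F.card := by
      rw [h1]
      apply mul_le_mul_of_nonneg_right h2 (Nat.cast_nonneg _)
    rw [← le_div_iff₀ h6] at h7
    refine h7.trans (le_of_eq ?_)
    field_simp
  have hsub : F.filter (fun a : Fin k → Fin (d + 1) → ℤ => ∃ i, ∃ p : ℕ, p.Prime ∧ p₀ < p ∧
      (p : ℤ) ∣ c1 i + a i ⟨1, by omega⟩ ∧ (p : ℤ) ∣ c2 i + a i ⟨2, by omega⟩) ⊆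
      univ.biUnion (fun i : Fin k => F.filter (fun a : Fin k → Fin (d + 1) → ℤ => ∃ p : ℕ, p.Prime ∧ p₀ < p ∧
      (p : ℤ) ∣ c1 i + a i ⟨1, by omega⟩ ∧ (p : ℤ) ∣ c2 i + a i ⟨2, by omega⟩)) := by
    intro a ha
    rw [mem_filter] at ha
    obtain ⟨h1, i, h2⟩ := ha
    rw [mem_biUnion]
    exact ⟨i, mem_univ _, mem_filter.2 ⟨h1, h2⟩⟩
  rw [← hF]
  have h3 : ((F.filter (fun a : Fin k → Fin (d + 1) → ℤ => ∃ i, ∃ p : ℕ, p.Prime ∧ p₀ < p ∧
      (p : ℤ) ∣ c1 i + a i ⟨1, by omega⟩ ∧ (p : ℤ) ∣ c2 i + a i ⟨2, by omega⟩)).card : ℝ) ≤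
      ∑ i : Fin k, ((F.filter (fun a : Fin k → Fin (d + 1) → ℤ => ∃ p : ℕ, p.Prime ∧ p₀ < p ∧
      (p : ℤ) ∣ c1 i + a i ⟨1, by omega⟩ ∧ (p : ℤ) ∣ c2 i + a i ⟨2, by omega⟩)).card : ℝ) := by
    exact_mod_cast (card_le_card hsub).trans card_biUnion_le
  refine h3.trans ((sum_le_sum fun i _ => hone i).trans ?_)
  rw [sum_const, card_univ, Fintype.card_fin, nsmul_eq_mul, ← mul_assoc]
  apply mul_le_mul_of_nonneg_right _ (Nat.cast_nonneg _)
  have hp1 : (0 : ℝ) < p₀ := by exact_mod_cast hp₀.2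
  have h4 := hp₀.1
  rw [div_le_iff₀ hε] at h4
  have h5 : (4 * k / ε : ℝ) ≤ H := (Nat.le_ceil _).trans (by exact_mod_cast g2)
  rw [div_le_iff₀ hε] at h5
  have h6 : (k : ℝ) * (4 / p₀) ≤ ε / 2 := by
    rw [mul_div_assoc', div_le_iff₀ hp1]
    linarith
  have h7 : (k : ℝ) * (2 / (2 * H + 1)) ≤ ε / 2 := by
    rw [mul_div_assoc', div_le_iff₀ (by positivity)]
    have : 0 ≤ ε := hε.le
    nlinarith
  linarith

end Pool.Agent.H11S
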