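import Mathlib
import Pool.Agent.H11P.Law

/-! The variance of the number of roots modulo primes, over the constant coefficient. -/

set_option autoImplicit false

namespace Pool.Agent.H11S

open Finset Filter Pool.Agent.H11P Pool.Agent.H11P.Law

theorem one_res (p : ℕ) (hp : p.Prime) (c : ℤ) : ((range p).filter (fun x : ℕ => (p : ℤ) ∣ c + x)).card = 1 := by
  have hp0 : (0 : ℤ) < p := by exact_mod_cast hp.pos
  rw [card_eq_one]
  refine ⟨((-c) % p).toNat, ?_⟩
  have h1 := Int.emod_nonneg (-c) hp0.ne'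
  have h2 := Int.emod_lt_of_pos (-c) hp0
  ext x
  rw [mem_filter, mem_range, mem_singleton]
  constructor
  · rintro ⟨h3, h4⟩
    have h5 : (-c) % p = (x : ℤ) % p := by
      apply Int.ModEq.symm
      rw [Int.modEq_iff_dvd]
      have : -c - (x : ℤ) = -(c + x) := by ring
      rw [this, dvd_neg]
      exact h4
    rw [h5, Int.emod_eq_of_lt (Int.natCast_nonneg x) (by exact_mod_cast h3)]
    rfl
  · rintro rfl
    refine ⟨by omega, ?_⟩
    rw [Int.toNat_of_nonneg h1]
    have : c + (-c) % p = -((-c) - (-c) % p) := by ring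
    rw [this, dvd_neg]
    exact Int.dvd_self_sub_emod

theorem res_mod (p : ℕ) (c : ℤ) (n : ℕ) : (p : ℤ) ∣ c + ((n % p : ℕ) : ℤ) ↔ (p : ℤ) ∣ c + n := by
  have h : (p : ℤ) ∣ (c + n) - (c + ((n % p : ℕ) : ℤ)) := by
    have e : (c + (n : ℤ)) - (c + ((n % p : ℕ) : ℤ)) = (n : ℤ) - (n : ℤ) % p := by push_cast; ring
    rw [e]
    exact Int.dvd_self_sub_emod
  constructor
  · intro h1
    have := dvd_add h h1
    rwa [sub_add_cancel] at this
  · intro h1
    exact (dvd_sub_right h1).1 h

theorem cnt2 (z p q : ℕ) (hp : p ∈ primesTo z) (hq : q ∈ primesTo z) (hpq : p ≠ q) (c c' : ℤ) :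
    ((range (primorial z)).filter (fun x : ℕ => (p : ℤ) ∣ c + x ∧ (q : ℤ) ∣ c' + x)).card * (p * q) = primorial z := by
  classical
  have hpr : ∀ p ∈ primesTo z, p.Prime := fun p hp => (mem_filter.1 hp).2
  have h1 := crt_prod (primesTo z) hpr (fun r x => if r = p then (p : ℤ) ∣ c + x else if r = q then (q : ℤ) ∣ c' + x else True) (by
    intro r _ n
    by_cases h : r = p
    · subst h
      simp only [if_true]
      exact res_mod r c n
    · rw [if_neg h, if_neg h]
      by_cases h' : r = q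
      · subst h'
        simp only [if_true]
        exact res_mod r c' n
      · rw [if_neg h', if_neg h'])
  rw [prod_primesTo] at h1
  have e : (range (primorial z)).filter (fun x : ℕ => ∀ r ∈ primesTo z, if r = p then (p : ℤ) ∣ c + x else if r = q then (q : ℤ) ∣ c' + x else True) =
      (range (primorial z)).filter (fun x : ℕ => (p : ℤ) ∣ c + x ∧ (q : ℤ) ∣ c' + x) := by
    apply filter_congr
    intro x _
    constructor
    · intro h
      have h2 := h p hp
      rw [if_pos rfl] at h2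
      have h3 := h q hq
      rw [if_neg hpq.symm, if_pos rfl] at h3
      exact ⟨h2, h3⟩
    · rintro ⟨h2, h3⟩ r _
      split_ifs
      · exact h2
      · exact h3
  rw [e] at h1
  rw [h1]
  have h2 : ∀ r ∈ ((primesTo z).erase p).erase q, ((range r).filter (fun x : ℕ => if r = p then (p : ℤ) ∣ c + x else if r = q then (q : ℤ) ∣ c' + x else True)).card = r := by
    intro r hr
    rw [mem_erase, mem_erase] at hr
    have : (range r).filter (fun x : ℕ => if r = p then (p : ℤ) ∣ c + x else if r = q then (q : ℤ) ∣ c' + x else True) = range r := by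
      apply filter_true_of_mem
      intro x _
      rw [if_neg hr.2.1, if_neg hr.1]
      trivial
    rw [this, card_range]
  have hq' : q ∈ (primesTo z).erase p := mem_erase.2 ⟨hpq.symm, hq⟩
  have h3 : primorial z = p * (q * ∏ r ∈ ((primesTo z).erase p).erase q, r) := by
    rw [← prod_primesTo, ← mul_prod_erase _ _ hp, ← mul_prod_erase _ _ hq']
  rw [← mul_prod_erase _ _ hp, ← mul_prod_erase _ _ hq', prod_congr rfl h2, h3]
  have e1 : ((range p).filter (fun x : ℕ => if p = p then (p : ℤ) ∣ c + x else if p = q then (q : ℤ) ∣ c' + x else True)).card = 1 := by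
    have : (range p).filter (fun x : ℕ => if p = p then (p : ℤ) ∣ c + x else if p = q then (q : ℤ) ∣ c' + x else True) =
        (range p).filter (fun x : ℕ => (p : ℤ) ∣ c + x) := by
      apply filter_congr
      intro x _
      rw [if_pos rfl]
    rw [this]
    exact one_res p (hpr p hp) c
  have e2 : ((range q).filter (fun x : ℕ => if q = p then (p : ℤ) ∣ c + x else if q = q then (q : ℤ) ∣ c' + x else True)).card = 1 := by
    have : (range q).filter (fun x : ℕ => if q = p then (p : ℤ) ∣ c + x else if q = q then (q : ℤ) ∣ c' + x else True) =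
        (range q).filter (fun x : ℕ => (q : ℤ) ∣ c' + x) := by
      apply filter_congr
      intro x _
      rw [if_neg hpq.symm, if_pos rfl]
    rw [this]
    exact one_res q (hpr q hq) c'
  rw [e1, e2]
  ring

theorem cnt1 (z p : ℕ) (hp : p ∈ primesTo z) (c : ℤ) :
    ((range (primorial z)).filter (fun x : ℕ => (p : ℤ) ∣ c + x)).card * p = primorial z := by
  classical
  have hpr : ∀ p ∈ primesTo z, p.Prime := fun p hp => (mem_filter.1 hp).2
  have h1 := crt_prod (primesTo z) hpr (fun r x => if r = p then (p : ℤ) ∣ c + x else True) (by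
    intro r _ n
    by_cases h : r = p
    · subst h
      simp only [if_true]
      exact res_mod r c n
    · rw [if_neg h, if_neg h])
  rw [prod_primesTo] at h1
  have e : (range (primorial z)).filter (fun x : ℕ => ∀ r ∈ primesTo z, if r = p then (p : ℤ) ∣ c + x else True) =
      (range (primorial z)).filter (fun x : ℕ => (p : ℤ) ∣ c + x) := by
    apply filter_congr
    intro x _
    constructor
    · intro h
      have h2 := h p hp
      rwa [if_pos rfl] at h2
    · intro h2 r _
      split_ifs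
      · exact h2
  rw [e] at h1
  rw [h1]
  have h2 : ∀ r ∈ (primesTo z).erase p, ((range r).filter (fun x : ℕ => if r = p then (p : ℤ) ∣ c + x else True)).card = r := by
    intro r hr
    rw [mem_erase] at hr
    have : (range r).filter (fun x : ℕ => if r = p then (p : ℤ) ∣ c + x else True) = range r := by
      apply filter_true_of_mem
      intro x _
      rw [if_neg hr.1]
      trivial
    rw [this, card_range]
  have h3 : primorial z = p * (∏ r ∈ (primesTo z).erase p, r) := by
    rw [← prod_primesTo, ← mul_prod_erase _ _ hp]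
  rw [← mul_prod_erase _ _ hp, prod_congr rfl h2, h3]
  have e1 : ((range p).filter (fun x : ℕ => if p = p then (p : ℤ) ∣ c + x else True)).card = 1 := by
    have : (range p).filter (fun x : ℕ => if p = p then (p : ℤ) ∣ c + x else True) =
        (range p).filter (fun x : ℕ => (p : ℤ) ∣ c + x) := by
      apply filter_congr
      intro x _
      rw [if_pos rfl]
    rw [this]
    exact one_res p (hpr p hp) c
  rw [e1]
  ring

/-- the number of the roots of `g + x` modulo `p` -/
def rt (g : ℕ → ℤ) (p : ℕ) (x : ℤ) : ℕ := ((range p).filter (fun n => (p : ℤ) ∣ g n + x)).card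

theorem rt_sum (g : ℕ → ℤ) (z p : ℕ) (hp : p ∈ primesTo z) : ∑ x ∈ range (primorial z), (rt g p x : ℝ) = primorial z := by
  have h1 : ∑ x ∈ range (primorial z), rt g p x = primorial z := by
    unfold rt
    simp_rw [card_filter]
    rw [sum_comm]
    have h2 : ∀ n ∈ range p, (∑ x ∈ range (primorial z), if (p : ℤ) ∣ g n + x then 1 else 0) * p = primorial z := by
      intro n _
      rw [← card_filter]
      exact cnt1 z p hp (g n)
    have hp0 : 0 < p := (mem_filter.1 hp).2.pos
    have h3 : (∑ n ∈ range p, ∑ x ∈ range (primorial z), if (p : ℤ) ∣ g n + x then 1 else 0) * p = primorial z * p := by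
      rw [sum_mul, sum_congr rfl h2, sum_const, card_range, smul_eq_mul, mul_comm]
    exact Nat.eq_of_mul_eq_mul_right hp0 h3
  exact_mod_cast h1

theorem rt_cross (g : ℕ → ℤ) (z p q : ℕ) (hp : p ∈ primesTo z) (hq : q ∈ primesTo z) (hpq : p ≠ q) :
    ∑ x ∈ range (primorial z), (rt g p x : ℝ) * rt g q x = primorial z := by
  have hp0 : 0 < p := (mem_filter.1 hp).2.pos
  have hq0 : 0 < q := (mem_filter.1 hq).2.pos
  have h1 : ∑ x ∈ range (primorial z), rt g p x * rt g q x = primorial z := by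
    unfold rt
    simp_rw [card_filter, sum_mul_sum]
    rw [sum_comm]
    simp_rw [sum_comm (s := range (primorial z))]
    have h2 : ∀ n ∈ range p, ∀ m ∈ range q, (∑ x ∈ range (primorial z), (if (p : ℤ) ∣ g n + x then 1 else 0) * (if (q : ℤ) ∣ g m + x then 1 else 0)) * (p * q) = primorial z := by
      intro n _ m _
      refine Eq.trans ?_ (cnt2 z p q hp hq hpq (g n) (g m))
      rw [card_filter]
      congr 1
      apply sum_congr rfl
      intro x _
      by_cases h3 : (p : ℤ) ∣ g n + x <;> by_cases h4 : (q : ℤ) ∣ g m + x <;> simp [h3, h4]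
    have h3 : (∑ n ∈ range p, ∑ m ∈ range q, ∑ x ∈ range (primorial z), (if (p : ℤ) ∣ g n + x then 1 else 0) * (if (q : ℤ) ∣ g m + x then 1 else 0)) * (p * q) = primorial z * (p * q) := by
      rw [sum_mul]
      simp_rw [sum_mul (s := range q)]
      rw [sum_congr rfl (fun n hn => sum_congr rfl (fun m hm => h2 n hn m hm))]
      simp only [sum_const, card_range, smul_eq_mul]
      ring
    exact Nat.eq_of_mul_eq_mul_right (Nat.mul_pos hp0 hq0) h3
  exact_mod_cast h1

/-- the second moment of the fluctuation of the numbers of roots -/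
theorem rt_second (g : ℕ → ℤ) (z p₁ D : ℕ) (hp₁ : 1 ≤ p₁) (hD : 1 ≤ D)
    (hrt : ∀ p ∈ primesTo z, p₁ < p → ∀ x : ℤ, rt g p x ≤ D) :
    ∑ x ∈ range (primorial z), (∑ p ∈ (primesTo z).filter (fun p => p₁ < p), ((rt g p x : ℝ) - 1) / p) ^ 2 ≤ (D : ℝ) ^ 2 / p₁ * primorial z := by
  obtain ⟨S, hS⟩ : ∃ S, S = (primesTo z).filter (fun p => p₁ < p) := ⟨_, rfl⟩
  rw [← hS]
  have hSp : ∀ p ∈ S, p ∈ primesTo z ∧ p₁ < p := fun p hp => by rw [hS, mem_filter] at hp; exact hp
  have hp0 : ∀ p ∈ S, (0 : ℝ) < p := fun p hp => by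
    have := (mem_filter.1 (hSp p hp).1).2.pos
    exact_mod_cast this
  have hW0 : (0 : ℝ) ≤ primorial z := Nat.cast_nonneg _
  have e : ∑ x ∈ range (primorial z), (∑ p ∈ S, ((rt g p x : ℝ) - 1) / p) ^ 2 =
      ∑ p ∈ S, ∑ q ∈ S, (∑ x ∈ range (primorial z), ((rt g p x : ℝ) - 1) * ((rt g q x : ℝ) - 1)) / (p * q) := by
    simp_rw [pow_two, sum_mul_sum]
    rw [sum_comm]
    apply sum_congr rfl
    intro p _
    rw [sum_comm]
    apply sum_congr rfl
    intro q _
    rw [sum_div]
    apply sum_congr rfl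
    intro x _
    rw [div_mul_div_comm]
  rw [e]
  have h1 : ∀ p ∈ S, ∑ q ∈ S, (∑ x ∈ range (primorial z), ((rt g p x : ℝ) - 1) * ((rt g q x : ℝ) - 1)) / (p * q) ≤ (D : ℝ) ^ 2 * primorial z * ((p : ℝ) ^ 2)⁻¹ := by
    intro p hp
    rw [sum_eq_single p]
    · have h2 : ∑ x ∈ range (primorial z), ((rt g p x : ℝ) - 1) * ((rt g p x : ℝ) - 1) ≤ ∑ _x ∈ range (primorial z), (D : ℝ) ^ 2 := by
        apply sum_le_sum
        intro x _
        rw [← pow_two]
        have h3 : (rt g p x : ℝ) ≤ D := by exact_mod_cast hrt p (hSp p hp).1 (hSp p hp).2 x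
        have h4 : (0 : ℝ) ≤ rt g p x := Nat.cast_nonneg _
        have h5 : (1 : ℝ) ≤ D := by exact_mod_cast hD
        apply sq_le_sq'
        · linarith
        · linarith
      rw [sum_const, card_range, nsmul_eq_mul] at h2
      have hpp := hp0 p hp
      rw [div_le_iff₀ (by positivity)]
      refine h2.trans (le_of_eq ?_)
      field_simp
    · intro q hq hqp
      have h2 : ∑ x ∈ range (primorial z), ((rt g p x : ℝ) - 1) * ((rt g q x : ℝ) - 1) = 0 := by
        have e2 : ∀ x ∈ range (primorial z), ((rt g p x : ℝ) - 1) * ((rt g q x : ℝ) - 1) = (rt g p x : ℝ) * rt g q x - rt g p x - rt g q x + 1 := by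
          intro x _; ring
        rw [sum_congr rfl e2, sum_add_distrib, sum_sub_distrib, sum_sub_distrib, rt_cross g z p q (hSp p hp).1 (hSp q hq).1 hqp.symm,
          rt_sum g z p (hSp p hp).1, rt_sum g z q (hSp q hq).1, sum_const, card_range, nsmul_eq_mul]
        ring
      rw [h2, zero_div]
    · intro h; exact absurd hp h
  refine (sum_le_sum h1).trans ?_
  rw [← mul_sum]
  have h2 : ∑ p ∈ S, ((p : ℝ) ^ 2)⁻¹ ≤ (p₁ : ℝ)⁻¹ := by
    have hsub : S ⊆ Ioc p₁ (max p₁ z) := by
      intro p hp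
      rw [mem_Ioc]
      have h3 := mem_filter.1 (hSp p hp).1
      rw [mem_range] at h3
      exact ⟨(hSp p hp).2, le_max_of_le_right (by omega)⟩
    refine (sum_le_sum_of_subset_of_nonneg hsub (fun _ _ _ => by positivity)).trans ?_
    refine (sum_Ioc_inv_sq_le_sub (by omega : p₁ ≠ 0) (le_max_left _ _)).trans ?_
    have : (0 : ℝ) ≤ ((max p₁ z : ℕ) : ℝ)⁻¹ := by positivity
    linarith
  calc (D : ℝ) ^ 2 * primorial z * ∑ p ∈ S, ((p : ℝ) ^ 2)⁻¹ ≤ (D : ℝ) ^ 2 * primorial z * (p₁ : ℝ)⁻¹ := by gcongr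
    _ = (D : ℝ) ^ 2 / p₁ * primorial z := by ring

theorem rt_per (g : ℕ → ℤ) (p W : ℕ) (hpW : p ∣ W) (x y : ℤ) (h : x ≡ y [ZMOD W]) : rt g p x = rt g p y := by
  unfold rt
  congr 1
  apply filter_congr
  intro n _
  have h1 : (p : ℤ) ∣ y - x := (Int.natCast_dvd_natCast.2 hpW).trans h.dvd
  have e : g n + y = (g n + x) + (y - x) := by ring
  rw [e]
  exact (dvd_add_left h1).symm

/-- the fluctuation is rarely large on an interval of constants -/
theorem rt_tail (g : ℕ → ℤ) (z p₁ D H : ℕ) (hp₁ : 1 ≤ p₁) (hD : 1 ≤ D) (t : ℝ) (ht : 0 < t) (hH : primorial z ≤ H)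
    (hrt : ∀ p ∈ primesTo z, p₁ < p → ∀ x : ℤ, rt g p x ≤ D) :
    (((Icc (-(H : ℤ)) H).filter (fun x : ℤ => t < ∑ p ∈ (primesTo z).filter (fun p => p₁ < p), ((rt g p x : ℝ) - 1) / p)).card : ℝ) ≤
      2 * (D : ℝ) ^ 2 / t ^ 2 * (2 * H + 1) := by
  classical
  obtain ⟨X, hX⟩ : ∃ X : ℤ → ℝ, X = fun x => ∑ p ∈ (primesTo z).filter (fun p => p₁ < p), ((rt g p x : ℝ) - 1) / p := ⟨_, rfl⟩
  have hX' : ∀ x : ℤ, ∑ p ∈ (primesTo z).filter (fun p => p₁ < p), ((rt g p x : ℝ) - 1) / p = X x := fun x => by rw [hX]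
  have h2 := rt_second g z p₁ D hp₁ hD hrt
  simp_rw [hX'] at h2 ⊢
  obtain ⟨W, hW⟩ : ∃ W, W = primorial z := ⟨_, rfl⟩
  have hW1 : 1 ≤ W := by rw [hW]; exact primorial_pos z
  have hWz : (0 : ℤ) < W := by exact_mod_cast hW1
  have hW0 : (0 : ℝ) < W := by exact_mod_cast hW1
  have hWH : (W : ℝ) ≤ H := by rw [hW]; exact_mod_cast hH
  rw [← hW] at h2
  have hper : ∀ x y : ℤ, x ≡ y [ZMOD W] → X x = X y := by
    intro x y h
    rw [hX]
    apply sum_congr rfl
    intro p hp
    have hp' := (mem_filter.1 hp).1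
    have : p ∣ W := by
      rw [hW, ← prod_primesTo]
      exact dvd_prod_of_mem (fun p => p) hp'
    rw [rt_per g p W this x y h]
  have hR : (((range W).filter (fun x : ℕ => t < X x)).card : ℝ) ≤ (D : ℝ) ^ 2 / t ^ 2 * W := by
    have h3 : (((range W).filter (fun x : ℕ => t < X x)).card : ℝ) * t ^ 2 ≤ (D : ℝ) ^ 2 / p₁ * W := by
      rw [← nsmul_eq_mul, ← sum_const]
      refine le_trans (sum_le_sum (g := fun x : ℕ => X x ^ 2) ?_) (le_trans (sum_le_sum_of_subset_of_nonneg (filter_subset _ _) (fun _ _ _ => sq_nonneg _)) h2)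
      intro x hx
      have := (mem_filter.1 hx).2
      gcongr
    have h4 : (D : ℝ) ^ 2 / p₁ * W ≤ (D : ℝ) ^ 2 * W := by
      apply mul_le_mul_of_nonneg_right _ hW0.le
      apply div_le_self (by positivity)
      exact_mod_cast hp₁
    rw [div_mul_eq_mul_div, le_div_iff₀ (by positivity)]
    exact h3.trans h4
  have hmap : ∀ x ∈ (Icc (-(H : ℤ)) H).filter (fun x : ℤ => t < X x), (x % (W : ℤ)).toNat ∈ (range W).filter (fun x : ℕ => t < X x) := by
    intro x hx
    have h3 := Int.emod_nonneg x hWz.ne'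
    have h4 := Int.emod_lt_of_pos x hWz
    rw [mem_filter, mem_range]
    refine ⟨by omega, ?_⟩
    rw [Int.toNat_of_nonneg h3, hper (x % W) x (Int.mod_modEq _ _)]
    exact (mem_filter.1 hx).2
  rw [card_eq_sum_card_fiberwise hmap]
  push_cast
  have hfib : ∀ y ∈ (range W).filter (fun x : ℕ => t < X x),
      ((((Icc (-(H : ℤ)) H).filter (fun x : ℤ => t < X x)).filter (fun x : ℤ => (x % (W : ℤ)).toNat = y)).card : ℝ) ≤ 2 * (2 * H + 1) / W := by
    intro y hy
    have h3 := (count_mod (-(H : ℤ) - 1) H y W hW1 (by omega)).1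
    have e : Ioc (-(H : ℤ) - 1) H = Icc (-(H : ℤ)) H := by
      ext x; simp only [mem_Ioc, mem_Icc]; omega
    rw [e] at h3
    have h4 : ((((Icc (-(H : ℤ)) H).filter (fun x : ℤ => t < X x)).filter (fun x : ℤ => (x % (W : ℤ)).toNat = y)).card : ℝ) ≤
        (((Icc (-(H : ℤ)) H).filter (fun x => x ≡ y [ZMOD W])).card : ℝ) := by
      rw [Nat.cast_le]
      apply card_le_card
      intro x hx
      rw [mem_filter, mem_filter] at hx
      rw [mem_filter]
      refine ⟨hx.1.1, ?_⟩
      have h5 := Int.emod_nonneg x hWz.ne'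
      have h6 : x % W = y := by omega
      have h7 := (Int.mod_modEq x W).symm
      rw [h6] at h7
      exact h7
    refine h4.trans (h3.trans ?_)
    push_cast
    have h5 : (1 : ℝ) ≤ (2 * H + 1) / W := by
      rw [le_div_iff₀ hW0]
      have : (0 : ℝ) ≤ H := Nat.cast_nonneg _
      linarith
    have h6 : ((H : ℝ) - (-(H : ℝ) - 1)) / W = (2 * H + 1) / W := by ring
    rw [h6]
    have h7 : 2 * (2 * (H : ℝ) + 1) / W = (2 * H + 1) / W + (2 * H + 1) / W := by ring
    linarith
  refine (sum_le_sum hfib).trans ?_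
  rw [sum_const, nsmul_eq_mul]
  calc (((range W).filter (fun x : ℕ => t < X x)).card : ℝ) * (2 * (2 * H + 1) / W) ≤ ((D : ℝ) ^ 2 / t ^ 2 * W) * (2 * (2 * H + 1) / W) := by gcongr
    _ = 2 * (D : ℝ) ^ 2 / t ^ 2 * (2 * H + 1) := by field_simp

end Pool.Agent.H11S
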