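import Mathlib
import Pool.Agent.H11S.Cont
import Pool.Agent.H11P.Law
import Pool.Agent.Y871.LW.Stm

/-! Szemerédi's theorem for the prime values of almost all systems. -/

set_option autoImplicit false

namespace Pool.Agent.H11S

open Finset Filter Pool.Agent.H11P Pool.Agent.H11P.Law Pool.Agent.Y871.LW

variable {k d : ℕ}

open Classical in
/-- prime values of polynomials in all windows, uniformly in the polynomials -/
def UNI : Prop := ∀ (k q e p₀ : ℕ), 1 ≤ k → ∀ ε : ℝ, 0 < ε → ∃ B X₀ : ℕ, ∀ X H m : ℕ, X₀ ≤ X →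
  Real.log X ^ B ≤ H → ∀ F : Fin q → Polynomial ℤ, (∀ l, (F l).natDegree ≤ e) →
  (∀ l, ∀ p : ℕ, p.Prime → p₀ < p → ∃ i, 1 ≤ i ∧ ¬ (p : ℤ) ∣ (F l).coeff i) →
  ∀ (A : Fin q → ℤ) (Xs : Fin q → ℕ), (∀ l, X ≤ Xs l) →
    (((Fintype.piFinset fun l => Ioc (A l) (A l + Xs l)).filter (fun a =>
      ¬ Cov (pts F a m H) k (Real.log X ^ B) (ε * H / Real.log X ^ q))).card : ℝ) ≤
      ε * ∏ l, (Xs l : ℝ)

/-- the points of the window where all values are primes -/
noncomputable def hitset (P : Fin k → Polynomial ℤ) (a : Fin k → Fin (d + 1) → ℤ) (J L : ℕ) : Finset ℕ :=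
  (Ioc J (J + L)).filter fun n => ∀ i, (value (P i) (a i) n).natAbs.Prime

/-- the full box -/
noncomputable def fbox (k d H : ℕ) : Finset (Fin k → Fin (d + 1) → ℤ) :=
  Fintype.piFinset fun _ => Fintype.piFinset fun _ => Icc (-(H : ℤ)) H

/-- the polynomial with the nonconstant coefficients `b` -/
noncomputable def npol (P : Polynomial ℤ) (b : Fin d → ℤ) : Polynomial ℤ :=
  P + ∑ l : Fin d, Polynomial.C (b l) * Polynomial.X ^ ((l : ℕ) + 1)

theorem npol_eval (P : Polynomial ℤ) (a : Fin (d + 1) → ℤ) (n : ℕ) :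
    (npol P (Fin.tail a)).eval (n : ℤ) + a 0 = value P a n := by
  unfold npol value
  rw [Polynomial.eval_add, Polynomial.eval_finsetSum, Fin.sum_univ_succ]
  simp only [Polynomial.eval_mul, Polynomial.eval_C, Polynomial.eval_pow, Polynomial.eval_X, Fin.val_zero, pow_zero, mul_one,
    Fin.val_succ, Fin.tail]
  ring

theorem npol_deg (P : Polynomial ℤ) (e : ℕ) (hP : P.natDegree ≤ e) (b : Fin d → ℤ) : (npol P b).natDegree ≤ max e d := by
  unfold npol
  refine (Polynomial.natDegree_add_le _ _).trans (max_le_max hP ?_)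
  apply Polynomial.natDegree_sum_le_of_forall_le
  intro l _
  refine (Polynomial.natDegree_C_mul_X_pow_le _ _).trans ?_
  have := l.2
  omega

theorem npol_coeff (P : Polynomial ℤ) (b : Fin d → ℤ) (j : Fin d) : (npol P b).coeff ((j : ℕ) + 1) = P.coeff ((j : ℕ) + 1) + b j := by
  unfold npol
  rw [Polynomial.coeff_add, Polynomial.finsetSum_coeff]
  congr 1
  simp only [Polynomial.coeff_C_mul, Polynomial.coeff_X_pow]
  rw [sum_eq_single j]
  · simp
  · intro l _ hl
    rw [if_neg]
    · simp
    · intro h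
      apply hl
      apply Fin.ext
      omega
  · intro h; exact absurd (mem_univ _) h

theorem Cov_mono (P : Finset ℕ) (m : ℕ) (D t t' : ℝ) (h : t ≤ t') (hc : Cov P m D t) : Cov P m D t' :=
  fun S hS T hT hn => (hc S hS T hT hn).trans h

open Classical in
/-- few arrays violate Szemerédi's theorem -/
theorem uni_app (hU : UNI) (k d e m : ℕ) (hd : 2 ≤ d) (hm : 1 ≤ m) (ε : ℝ) (hε : 0 < ε) : ∃ B : ℕ, ∀ A : ℕ, ∃ H₀ : ℕ, ∀ H ≥ H₀,
    ∀ P : Fin k → Polynomial ℤ, (∀ i, (P i).natDegree ≤ e) → (∀ i j, |((P i).coeff j : ℝ)| ≤ H * Real.log H ^ A) →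
    ∀ J L : ℕ, Real.log H ^ B ≤ L →
    (((fbox k d H).filter (fun a => ¬ Cov (hitset P a J L) m (Real.log H ^ B) (ε * L / Real.log H ^ k))).card : ℝ) ≤
      ε * (fbox k d H).card := by
  obtain ⟨p₀, hp₀⟩ := cont k d hd (ε / 2) (by positivity)
  obtain ⟨B, X₀, hB⟩ := hU m k (max e d) p₀ hm (ε / 2) (by positivity)
  refine ⟨B, fun A => ?_⟩
  obtain ⟨H₁, hH₁⟩ := (hp₀ A).exists_forall_of_atTop
  refine ⟨max (max X₀ H₁) 1, fun H hH P hPe hPc J L hL => ?_⟩
  have hH1 : H₁ ≤ H := (le_max_right _ _).trans ((le_max_left _ _).trans hH)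
  have hX0 : X₀ ≤ H := (le_max_left _ _).trans ((le_max_left _ _).trans hH)
  have hH0 : 1 ≤ H := (le_max_right _ _).trans hH
  have hlog0 : 0 ≤ Real.log H := Real.log_natCast_nonneg H
  obtain ⟨I, hI⟩ : ∃ I, I = Icc (-(H : ℤ)) H := ⟨_, rfl⟩
  have hIc : I.card = 2 * H + 1 := by rw [hI, Int.card_Icc]; omega
  -- the bad contents
  have c1 := hH₁ H hH1 (fun i => (P i).coeff 1) (fun i => (P i).coeff 2) (fun i => hPc i 1)
  obtain ⟨Q, hQ⟩ : ∃ Q : (Fin k → Fin (d + 1) → ℤ) → Prop, Q = (fun a => ∃ i, ∃ p : ℕ, p.Prime ∧ p₀ < p ∧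
      (p : ℤ) ∣ (P i).coeff 1 + a i ⟨1, by omega⟩ ∧ (p : ℤ) ∣ (P i).coeff 2 + a i ⟨2, by omega⟩) := ⟨_, rfl⟩
  have hsub : (fbox k d H).filter (fun a => ¬ Cov (hitset P a J L) m (Real.log H ^ B) (ε * L / Real.log H ^ k)) ⊆
      (fbox k d H).filter Q ∪ (fbox k d H).filter (fun a => ¬ Q a ∧ ¬ Cov (hitset P a J L) m (Real.log H ^ B) (ε / 2 * L / Real.log H ^ k)) := by
    intro a ha
    rw [mem_filter] at ha
    rw [mem_union, mem_filter, mem_filter]
    by_cases h : Q a
    · exact Or.inl ⟨ha.1, h⟩
    · refine Or.inr ⟨ha.1, h, fun hc => ha.2 (Cov_mono _ _ _ _ _ ?_ hc)⟩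
      have : ε / 2 * L / Real.log H ^ k ≤ ε * L / Real.log H ^ k := by
        apply div_le_div_of_nonneg_right _ (by positivity)
        have : (0 : ℝ) ≤ L := Nat.cast_nonneg L
        nlinarith
      exact this
  have b1 : (((fbox k d H).filter Q).card : ℝ) ≤ ε / 2 * (fbox k d H).card := by
    rw [hQ]
    unfold fbox
    convert c1
  have b2 : (((fbox k d H).filter (fun a => ¬ Q a ∧ ¬ Cov (hitset P a J L) m (Real.log H ^ B) (ε / 2 * L / Real.log H ^ k))).card : ℝ) ≤
      ε / 2 * (fbox k d H).card := by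
    obtain ⟨T, hT⟩ : ∃ T : Finset (Fin k → Fin d → ℤ), T = Fintype.piFinset (fun _ => Fintype.piFinset (fun _ => I)) := ⟨_, rfl⟩
    have hmap : ∀ a ∈ (fbox k d H).filter (fun a => ¬ Q a ∧ ¬ Cov (hitset P a J L) m (Real.log H ^ B) (ε / 2 * L / Real.log H ^ k)),
        (fun i => Fin.tail (a i)) ∈ T := by
      intro a ha
      rw [mem_filter] at ha
      have h1 := ha.1
      unfold fbox at h1
      rw [hT, Fintype.mem_piFinset]
      intro i
      rw [Fintype.mem_piFinset]
      intro l
      rw [hI]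
      exact Fintype.mem_piFinset.1 (Fintype.mem_piFinset.1 h1 i) l.succ
    rw [card_eq_sum_card_fiberwise hmap]
    push_cast
    have hfib : ∀ b ∈ T, ((((fbox k d H).filter (fun a => ¬ Q a ∧ ¬ Cov (hitset P a J L) m (Real.log H ^ B) (ε / 2 * L / Real.log H ^ k))).filter
        (fun a => (fun i => Fin.tail (a i)) = b)).card : ℝ) ≤ ε / 2 * (2 * H + 1) ^ k := by
      intro b hb
      by_cases hgood : ∀ i, ∀ p : ℕ, p.Prime → p₀ < p → ∃ j, 1 ≤ j ∧ ¬ (p : ℤ) ∣ (npol (P i) (b i)).coeff j
      · have key := hB H L J hX0 hL (fun i => npol (P i) (b i)) (fun i => npol_deg _ _ (hPe i) _) hgood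
          (fun _ => -(H : ℤ) - 1) (fun _ => 2 * H + 1) (fun _ => by omega)
        rw [prod_const, card_univ, Fintype.card_fin] at key
        push_cast at key
        refine le_trans ?_ key
        rw [Nat.cast_le]
        apply card_le_card_of_injOn (fun a i => a i 0)
        · intro a ha
          rw [mem_coe, mem_filter, mem_filter] at ha
          obtain ⟨⟨h1, h2, h3⟩, h4⟩ := ha
          rw [mem_coe, mem_filter, Fintype.mem_piFinset]
          constructor
          · intro i
            unfold fbox at h1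
            have h5 := Fintype.mem_piFinset.1 (Fintype.mem_piFinset.1 h1 i) 0
            rw [mem_Icc] at h5
            rw [mem_Ioc]
            change -(H : ℤ) - 1 < a i 0 ∧ a i 0 ≤ _
            constructor <;> omega
          · intro hc
            apply h3
            have e : hitset P a J L = pts (fun i => npol (P i) (b i)) (fun i => a i 0) J L := by
              unfold hitset pts
              apply filter_congr
              intro n _
              apply forall_congr'
              intro i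
              have h6 : b i = Fin.tail (a i) := (congrFun h4 i).symm
              change _ ↔ Nat.Prime (Polynomial.eval (n : ℤ) (npol (P i) (b i)) + a i 0).natAbs
              rw [h6, npol_eval]
            rw [e]
            exact hc
        · intro a ha a' ha' he
          rw [mem_coe, mem_filter] at ha ha'
          have h4 := ha.2.trans ha'.2.symm
          funext i
          have h5 : a i 0 = a' i 0 := congrFun he i
          have h6 : Fin.tail (a i) = Fin.tail (a' i) := congrFun h4 i
          rw [← Fin.cons_self_tail (a i), ← Fin.cons_self_tail (a' i), h5, h6]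
      · have : (((fbox k d H).filter (fun a => ¬ Q a ∧ ¬ Cov (hitset P a J L) m (Real.log H ^ B) (ε / 2 * L / Real.log H ^ k))).filter
            (fun a => (fun i => Fin.tail (a i)) = b)) = ∅ := by
          rw [filter_eq_empty_iff]
          intro a ha hab
          rw [mem_filter] at ha
          apply ha.2.1
          rw [hQ]
          push Not at hgood
          obtain ⟨i, p, hp, hpp, hj⟩ := hgood
          refine ⟨i, p, hp, hpp, ?_, ?_⟩
          · have h1 := hj 1 (le_refl 1)
            have h2 := npol_coeff (P i) (b i) ⟨0, by omega⟩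
            rw [← congrFun hab i] at h1 h2
            simp only [zero_add] at h2
            rw [h2] at h1
            exact h1
          · have h1 := hj 2 (by norm_num)
            have h2 := npol_coeff (P i) (b i) ⟨1, by omega⟩
            rw [← congrFun hab i] at h1 h2
            simp only [Nat.reduceAdd] at h2
            rw [h2] at h1
            exact h1
        rw [this, card_empty, Nat.cast_zero]
        positivity
    refine (sum_le_sum hfib).trans (le_of_eq ?_)
    rw [sum_const, nsmul_eq_mul, hT]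
    unfold fbox
    rw [Fintype.card_piFinset, Fintype.card_piFinset]
    simp_rw [Fintype.card_piFinset]
    rw [← hI]
    simp only [prod_const, card_univ, Fintype.card_fin, hIc]
    push_cast
    rw [pow_succ ((2 : ℝ) * H + 1) d, mul_pow]
    ring
  calc _ ≤ ((((fbox k d H).filter Q ∪ (fbox k d H).filter (fun a => ¬ Q a ∧ ¬ Cov (hitset P a J L) m (Real.log H ^ B) (ε / 2 * L / Real.log H ^ k))).card : ℕ) : ℝ) := by
        exact_mod_cast card_le_card hsub
    _ ≤ (((fbox k d H).filter Q).card : ℝ) + (((fbox k d H).filter (fun a => ¬ Q a ∧ ¬ Cov (hitset P a J L) m (Real.log H ^ B) (ε / 2 * L / Real.log H ^ k))).card : ℝ) := by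
        exact_mod_cast card_union_le _ _
    _ ≤ ε * (fbox k d H).card := by linarith

end Pool.Agent.H11S
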