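import Mathlib
import Pool.Agent.H11S.TailA
import Pool.Agent.H11S.UniApp

/-! The lower tail of the truncated Bateman-Horn constants. -/

set_option autoImplicit false

namespace Pool.Agent.H11S

open Finset Filter Pool.Agent.H11P Pool.Agent.H11P.Law

variable {k d : ℕ}

theorem upd_count (I : Finset ℤ) (hI : I.Nonempty) (i : Fin k) (l : Fin (d + 1)) (R : (Fin k → Fin (d + 1) → ℤ) → Prop) [DecidablePred R] (η : ℝ)
    (h : ∀ a ∈ (Fintype.piFinset fun (_ : Fin k) => Fintype.piFinset fun (_ : Fin (d + 1)) => I),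
      ((I.filter (fun x => R (Function.update a i (Function.update (a i) l x)))).card : ℝ) ≤ η * I.card) :
    (((Fintype.piFinset fun (_ : Fin k) => Fintype.piFinset fun (_ : Fin (d + 1)) => I).filter R).card : ℝ) ≤
      η * (Fintype.piFinset fun (_ : Fin k) => Fintype.piFinset fun (_ : Fin (d + 1)) => I).card := by
  classical
  obtain ⟨F, hF⟩ : ∃ F, F = (Fintype.piFinset fun (_ : Fin k) => Fintype.piFinset fun (_ : Fin (d + 1)) => I) := ⟨_, rfl⟩
  rw [← hF] at h ⊢
  obtain ⟨u, hu⟩ : ∃ u : (Fin k → Fin (d + 1) → ℤ) → ℤ → (Fin k → Fin (d + 1) → ℤ), ∀ a x, u a x = Function.update a i (Function.update (a i) l x) :=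
    ⟨fun a x => Function.update a i (Function.update (a i) l x), fun _ _ => rfl⟩
  have hu1 : ∀ a x, u a x i l = x := by
    intro a x
    rw [hu, Function.update_self, Function.update_self]
  have hu2 : ∀ a x, u (u a x) (a i l) = a := by
    intro a x
    simp only [hu, Function.update_self, Function.update_idem, Function.update_eq_self]
  have huF : ∀ a ∈ F, ∀ x ∈ I, u a x ∈ F := by
    intro a ha x hx
    rw [hF] at ha ⊢
    rw [Fintype.mem_piFinset]
    intro i'
    rw [Fintype.mem_piFinset]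
    intro l'
    rw [hu]
    have h1 := Fintype.mem_piFinset.1 (Fintype.mem_piFinset.1 ha i') l'
    by_cases hi : i' = i
    · subst hi
      simp only [Function.update_self]
      by_cases hl : l' = l
      · subst hl
        rw [Function.update_self]
        exact hx
      · rw [Function.update_of_ne hl]
        exact h1
    · simp only [Function.update_of_ne hi]
      exact h1
  have hFI : ∀ a ∈ F, a i l ∈ I := by
    intro a ha
    rw [hF] at ha
    exact Fintype.mem_piFinset.1 (Fintype.mem_piFinset.1 ha i) l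
  have e1 : ((F ×ˢ I).filter (fun y => R (u y.1 y.2))).card = ((F ×ˢ I).filter (fun y => R y.1)).card := by
    apply card_bij (fun y _ => (u y.1 y.2, y.1 i l))
    · intro y hy
      rw [mem_filter, mem_product] at hy ⊢
      exact ⟨⟨huF _ hy.1.1 _ hy.1.2, hFI _ hy.1.1⟩, hy.2⟩
    · intro y hy y' hy' he
      rw [Prod.mk.injEq] at he
      have h1 : y.1 = y'.1 := by
        rw [← hu2 y.1 y.2, ← hu2 y'.1 y'.2, he.1, he.2]
      have h2 : y.2 = y'.2 := by
        rw [← hu1 y.1 y.2, ← hu1 y'.1 y'.2, he.1]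
      exact Prod.ext h1 h2
    · intro y hy
      rw [mem_filter, mem_product] at hy
      refine ⟨(u y.1 y.2, y.1 i l), ?_, ?_⟩
      · rw [mem_filter, mem_product]
        refine ⟨⟨huF _ hy.1.1 _ hy.1.2, hFI _ hy.1.1⟩, ?_⟩
        simp only
        rw [hu2]
        exact hy.2
      · simp only
        rw [hu2, hu1]
  have e2 : (((F ×ˢ I).filter (fun y => R y.1)).card : ℝ) = (F.filter R).card * I.card := by
    have : (F ×ˢ I).filter (fun y => R y.1) = (F.filter R) ×ˢ I := by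
      ext y
      simp only [mem_filter, mem_product]
      tauto
    rw [this, card_product]
    push_cast
    rfl
  have e3 : (((F ×ˢ I).filter (fun y => R (u y.1 y.2))).card : ℝ) = ∑ a ∈ F, ((I.filter (fun x => R (u a x))).card : ℝ) := by
    rw [card_filter, sum_product]
    push_cast
    apply sum_congr rfl
    intro a _
    rw [card_filter]
    push_cast
    rfl
  have h1 : ((F.filter R).card : ℝ) * I.card ≤ (η * F.card) * I.card := by
    rw [← e2, ← e1, e3]
    refine (sum_le_sum (fun a ha => ?_ : ∀ a ∈ F, _ ≤ η * (I.card : ℝ))).trans ?_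
    · simp_rw [hu]
      exact h a ha
    · rw [sum_const, nsmul_eq_mul]
      apply le_of_eq
      ring
  have hI0 : (0 : ℝ) < I.card := by exact_mod_cast card_pos.2 hI
  exact le_of_mul_le_mul_right h1 hI0

theorem exp_lower (x : ℝ) (h0 : 0 ≤ x) (h1 : x ≤ 1 / 2) : Real.exp (-x - 2 * x ^ 2) ≤ 1 - x := by
  have h2 := Real.add_one_le_exp (x + 2 * x ^ 2)
  have e : -x - 2 * x ^ 2 = -(x + 2 * x ^ 2) := by ring
  rw [e, Real.exp_neg]
  have h3 : 0 < x + 2 * x ^ 2 + 1 := by positivity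
  have h4 : (Real.exp (x + 2 * x ^ 2))⁻¹ ≤ (x + 2 * x ^ 2 + 1)⁻¹ := inv_anti₀ h3 h2
  refine h4.trans ?_
  rw [inv_le_comm₀ h3 (by linarith), ← one_div, div_le_iff₀ (by linarith)]
  have : 0 ≤ x ^ 2 * (1 - 2 * x) := by
    apply mul_nonneg (sq_nonneg _)
    linarith
  nlinarith

/-- the number of the roots of one polynomial -/
def rho (P : Polynomial ℤ) (a : Fin (d + 1) → ℤ) (p : ℕ) : ℕ := ((range p).filter (fun n : ℕ => (p : ℤ) ∣ value P a n)).card

theorem omega_le (P : Fin k → Polynomial ℤ) (a : Fin k → Fin (d + 1) → ℤ) (p : ℕ) : omega P a p ≤ ∑ i, rho (P i) (a i) p := by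
  classical
  unfold omega rho
  refine le_trans (card_le_card ?_) card_biUnion_le
  intro n hn
  rw [mem_filter] at hn
  obtain ⟨h1, i, h2⟩ := hn
  rw [mem_biUnion]
  exact ⟨i, mem_univ _, mem_filter.2 ⟨h1, h2⟩⟩

theorem bh_lower (P : Fin k → Polynomial ℤ) (a : Fin k → Fin (d + 1) → ℤ) (z p₁ D : ℕ) (hp1 : 1 ≤ p₁) (hp₁ : 2 * (k * D) ≤ p₁) (t : ℝ)
    (hadm : ∀ p ∈ primesTo z, omega P a p < p) (hroot : ∀ i, ∀ p ∈ primesTo z, p₁ < p → rho (P i) (a i) p ≤ D)
    (hX : ∀ i, ∑ p ∈ (primesTo z).filter (fun p => p₁ < p), ((rho (P i) (a i) p : ℝ) - 1) / p ≤ t) :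
    Real.exp (-(k * t) - 2 * (k * D : ℕ) ^ 2) / primorial p₁ ≤ bhConst P z a := by
  classical
  obtain ⟨K, hK⟩ : ∃ K, K = k * D := ⟨_, rfl⟩
  rw [← hK] at hp₁ ⊢
  have hpr : ∀ p ∈ primesTo z, p.Prime := fun p hp => (mem_filter.1 hp).2
  have hfac0 : ∀ p : ℕ, p.Prime → 0 < (1 - 1 / (p : ℝ)) ^ k := by
    intro p hp
    have : (1 : ℝ) < p := by exact_mod_cast hp.one_lt
    have h1 : 1 / (p : ℝ) < 1 := by rw [div_lt_one (by linarith)]; exact this
    have : 0 < 1 - 1 / (p : ℝ) := by linarith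
    positivity
  have hfac1 : ∀ p : ℕ, p.Prime → (1 - 1 / (p : ℝ)) ^ k ≤ 1 := by
    intro p hp
    have : (1 : ℝ) < p := by exact_mod_cast hp.one_lt
    have h1 : 1 / (p : ℝ) < 1 := by rw [div_lt_one (by linarith)]; exact this
    have h2 : 0 ≤ 1 / (p : ℝ) := by positivity
    apply pow_le_one₀ <;> linarith
  unfold bhConst
  rw [← prod_filter_mul_prod_filter_not (primesTo z) (fun p => p₁ < p), div_eq_mul_inv]
  obtain ⟨S, hS⟩ : ∃ S, S = (primesTo z).filter (fun p => p₁ < p) := ⟨_, rfl⟩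
  rw [← hS] at hX ⊢
  have hSp : ∀ p ∈ S, p ∈ primesTo z ∧ p₁ < p := fun p hp => by rw [hS, mem_filter] at hp; exact hp
  -- the large primes
  have hbig : Real.exp (-(k * t) - 2 * (K : ℝ) ^ 2) ≤ ∏ p ∈ S, (1 - (omega P a p : ℝ) / p) / (1 - 1 / (p : ℝ)) ^ k := by
    have h1 : ∀ p ∈ S, Real.exp (-(∑ i, ((rho (P i) (a i) p : ℝ) - 1) / p) - 2 * (K : ℝ) ^ 2 * ((p : ℝ) ^ 2)⁻¹) ≤
        (1 - (omega P a p : ℝ) / p) / (1 - 1 / (p : ℝ)) ^ k := by
      intro p hp
      obtain ⟨hp1, hp2⟩ := hSp p hp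
      have hpp := hpr p hp1
      have hp0 : (0 : ℝ) < p := by exact_mod_cast hpp.pos
      have hsum : (omega P a p : ℝ) ≤ ∑ i, (rho (P i) (a i) p : ℝ) := by exact_mod_cast omega_le P a p
      have hsumK : ∑ i, (rho (P i) (a i) p : ℝ) ≤ K := by
        refine (sum_le_sum (fun i _ => ?_ : ∀ i ∈ univ, (rho (P i) (a i) p : ℝ) ≤ D)).trans ?_
        · exact_mod_cast hroot i p hp1 hp2
        · rw [sum_const, card_univ, Fintype.card_fin, nsmul_eq_mul, hK]
          push_cast
          exact le_rfl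
      obtain ⟨x, hx⟩ : ∃ x : ℝ, x = (omega P a p : ℝ) / p := ⟨_, rfl⟩
      have hx0 : 0 ≤ x := by rw [hx]; positivity
      have hxK : x ≤ K / p := by
        rw [hx]
        apply div_le_div_of_nonneg_right _ hp0.le
        linarith
      have hx1 : x ≤ 1 / 2 := by
        refine hxK.trans ?_
        rw [div_le_iff₀ hp0]
        have : (2 * K : ℝ) ≤ p₁ := by exact_mod_cast hp₁
        have : (p₁ : ℝ) ≤ p := by exact_mod_cast hp2.le
        linarith
      have hx2 : x ^ 2 ≤ (K : ℝ) ^ 2 * ((p : ℝ) ^ 2)⁻¹ := by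
        calc x ^ 2 ≤ (K / p) ^ 2 := by gcongr
          _ = (K : ℝ) ^ 2 * ((p : ℝ) ^ 2)⁻¹ := by rw [div_pow]; ring
      rw [← hx, le_div_iff₀ (hfac0 p hpp)]
      have h2 : (1 - 1 / (p : ℝ)) ^ k ≤ Real.exp (-(k / p)) := by
        have h3 := Real.one_sub_le_exp_neg (1 / (p : ℝ))
        have h4 : 0 ≤ 1 - 1 / (p : ℝ) := by
          have : (1 : ℝ) ≤ p := by exact_mod_cast hpp.one_lt.le
          have : 1 / (p : ℝ) ≤ 1 := by rw [div_le_one hp0]; exact this
          linarith
        calc (1 - 1 / (p : ℝ)) ^ k ≤ (Real.exp (-(1 / p))) ^ k := by gcongr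
          _ = Real.exp (-(k / p)) := by
              rw [← Real.exp_nat_mul]
              congr 1
              ring
      calc _ ≤ Real.exp (-(∑ i, ((rho (P i) (a i) p : ℝ) - 1) / p) - 2 * (K : ℝ) ^ 2 * ((p : ℝ) ^ 2)⁻¹) * Real.exp (-(k / p)) := by gcongr
        _ = Real.exp (-(∑ i, ((rho (P i) (a i) p : ℝ) - 1) / p) - 2 * (K : ℝ) ^ 2 * ((p : ℝ) ^ 2)⁻¹ + -(k / p)) := by rw [← Real.exp_add]
        _ ≤ Real.exp (-x - 2 * x ^ 2) := by
            rw [Real.exp_le_exp]
            have e1 : ∑ i, ((rho (P i) (a i) p : ℝ) - 1) / p = (∑ i, (rho (P i) (a i) p : ℝ)) / p - k / p := by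
              rw [← sum_div, sum_sub_distrib, sub_div]
              simp
            rw [e1]
            have h5 : x ≤ (∑ i, (rho (P i) (a i) p : ℝ)) / p := by
              rw [hx]
              exact div_le_div_of_nonneg_right hsum hp0.le
            linarith
        _ ≤ 1 - x := exp_lower x hx0 hx1
    refine le_trans ?_ (prod_le_prod (fun p _ => (Real.exp_pos _).le) h1)
    rw [← Real.exp_sum, Real.exp_le_exp, sum_sub_distrib, sum_neg_distrib, sum_comm, ← mul_sum]
    have h2 : ∑ i, ∑ p ∈ S, ((rho (P i) (a i) p : ℝ) - 1) / p ≤ k * t := by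
      refine (sum_le_sum fun i _ => hX i).trans ?_
      rw [sum_const, card_univ, Fintype.card_fin, nsmul_eq_mul]
    have h3 : ∑ p ∈ S, ((p : ℝ) ^ 2)⁻¹ ≤ 1 := by
      have hsub : S ⊆ Ioc p₁ (max p₁ z) := by
        intro p hp
        rw [mem_Ioc]
        have h3 := mem_filter.1 (hSp p hp).1
        rw [mem_range] at h3
        exact ⟨(hSp p hp).2, le_max_of_le_right (by omega)⟩
      refine (sum_le_sum_of_subset_of_nonneg hsub (fun _ _ _ => by positivity)).trans ?_
      refine (sum_Ioc_inv_sq_le_sub (by omega : p₁ ≠ 0) (le_max_left _ _)).trans ?_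
      have h4 : (0 : ℝ) ≤ ((max p₁ z : ℕ) : ℝ)⁻¹ := by positivity
      have h5 : (p₁ : ℝ)⁻¹ ≤ 1 := inv_le_one_of_one_le₀ (by exact_mod_cast hp1)
      linarith
    have h4 : 2 * (K : ℝ) ^ 2 * ∑ p ∈ S, ((p : ℝ) ^ 2)⁻¹ ≤ 2 * (K : ℝ) ^ 2 * 1 := by gcongr
    linarith
  -- the small primes
  have hsmall : (primorial p₁ : ℝ)⁻¹ ≤ ∏ p ∈ (primesTo z).filter (fun p => ¬ p₁ < p), (1 - (omega P a p : ℝ) / p) / (1 - 1 / (p : ℝ)) ^ k := by
    have h1 : ∀ p ∈ (primesTo z).filter (fun p => ¬ p₁ < p), ((p : ℝ))⁻¹ ≤ (1 - (omega P a p : ℝ) / p) / (1 - 1 / (p : ℝ)) ^ k := by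
      intro p hp
      rw [mem_filter] at hp
      have hpp := hpr p hp.1
      have hp0 : (0 : ℝ) < p := by exact_mod_cast hpp.pos
      have h2 : (omega P a p : ℝ) + 1 ≤ p := by exact_mod_cast hadm p hp.1
      have h3 : ((p : ℝ))⁻¹ ≤ 1 - (omega P a p : ℝ) / p := by
        rw [inv_eq_one_div, div_le_iff₀ hp0, sub_mul, div_mul_cancel₀ _ hp0.ne']
        linarith
      refine h3.trans ?_
      rw [le_div_iff₀ (hfac0 p hpp)]
      have h4 : 0 ≤ 1 - (omega P a p : ℝ) / p := by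
        have : 0 ≤ ((p : ℝ))⁻¹ := by positivity
        linarith
      exact mul_le_of_le_one_right h4 (hfac1 p hpp)
    refine le_trans ?_ (prod_le_prod (fun p _ => by positivity) h1)
    rw [prod_inv_distrib]
    have h2 : ∏ p ∈ (primesTo z).filter (fun p => ¬ p₁ < p), (p : ℝ) ≤ primorial p₁ := by
      have h2' : ∏ p ∈ (primesTo z).filter (fun p => ¬ p₁ < p), p ≤ primorial p₁ := ?_
      · rw [← Nat.cast_prod]
        exact Nat.cast_le.2 h2'
      rw [← prod_primesTo]
      apply prod_le_prod_of_subset_of_one_le'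
      · intro p hp
        unfold primesTo at hp ⊢
        rw [mem_filter, mem_filter, mem_range] at hp
        rw [mem_filter, mem_range]
        exact ⟨by omega, hp.1.2⟩
      · intro p hp _
        exact (mem_filter.1 hp).2.one_lt.le
    apply inv_anti₀ _ h2
    apply prod_pos
    intro p hp
    have := (hpr p (mem_filter.1 hp).1).pos
    exact_mod_cast this
  apply mul_le_mul hbig hsmall (by positivity)
  exact (Real.exp_pos _).le.trans hbig

/-- the number of roots modulo a prime -/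
theorem rt_le (F : Polynomial ℤ) {e : ℕ} (hF : F.natDegree ≤ e) (p : ℕ) (hp : p.Prime)
    (hco : ∃ i, 1 ≤ i ∧ ¬ (p : ℤ) ∣ F.coeff i) (x : ℤ) : rt (fun n => F.eval (n : ℤ)) p x ≤ e := by
  classical
  have := Fact.mk hp
  obtain ⟨G, hG⟩ : ∃ G : Polynomial (ZMod p), G = F.map (Int.castRingHom (ZMod p)) + Polynomial.C (x : ZMod p) := ⟨_, rfl⟩
  obtain ⟨i0, hi0, hpi0⟩ := hco
  have hco : G.coeff i0 ≠ 0 := by
    rw [hG, Polynomial.coeff_add, Polynomial.coeff_map, Polynomial.coeff_C, if_neg (by omega), add_zero]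
    intro h
    have h1 : ((F.coeff i0 : ℤ) : ZMod p) = 0 := h
    rw [ZMod.intCast_zmod_eq_zero_iff_dvd] at h1
    exact hpi0 h1
  have hG0 : G ≠ 0 := by
    intro h
    rw [h] at hco
    simp at hco
  have hdeg : G.natDegree ≤ e := by
    rw [hG, Polynomial.natDegree_add_C]
    exact Polynomial.natDegree_map_le.trans hF
  unfold rt
  refine le_trans ?_ ((Multiset.toFinset_card_le _).trans ((Polynomial.card_roots' G).trans hdeg))
  refine card_le_card_of_injOn (fun r => ((r : ℕ) : ZMod p)) ?_ ?_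
  · intro r hr
    rw [mem_coe, mem_filter] at hr
    rw [mem_coe, Multiset.mem_toFinset, Polynomial.mem_roots hG0, Polynomial.IsRoot.def, hG, Polynomial.eval_add, Polynomial.eval_C]
    have h4 : Polynomial.eval (((r : ℕ) : ZMod p)) (F.map (Int.castRingHom (ZMod p))) = ((F.eval ((r : ℕ) : ℤ) : ℤ) : ZMod p) := by
      have := Polynomial.eval_intCast_map (Int.castRingHom (ZMod p)) F ((r : ℕ) : ℤ)
      simpa using this
    simp only
    rw [h4, ← Int.cast_add, ZMod.intCast_zmod_eq_zero_iff_dvd]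
    exact hr.2
  · intro a ha b hb hab
    rw [mem_coe, mem_filter, mem_range] at ha hb
    simp only at hab
    rw [ZMod.natCast_eq_natCast_iff] at hab
    exact Nat.ModEq.eq_of_lt_of_lt hab ha.1 hb.1

theorem rho_rt (P : Polynomial ℤ) (a : Fin (d + 1) → ℤ) (p : ℕ) :
    rho P a p = rt (fun n => (npol P (Fin.tail a)).eval (n : ℤ)) p (a 0) := by
  unfold rho rt
  congr 1
  apply filter_congr
  intro n _
  rw [npol_eval]

open Classical in
/-- the lower tail of the truncated constants -/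
theorem tail (k d e : ℕ) (hd : 2 ≤ d) (ε : ℝ) (hε : 0 < ε) : ∃ c₁ : ℝ, 0 < c₁ ∧ ∀ z A : ℕ, ∃ H₀ : ℕ, ∀ H ≥ H₀,
    ∀ P : Fin k → Polynomial ℤ, (∀ i, (P i).natDegree ≤ e) → (∀ i j, |((P i).coeff j : ℝ)| ≤ H * Real.log H ^ A) →
    (((fbox k d H).filter (fun a => (∀ p ∈ primesTo z, omega P a p < p) ∧ bhConst P z a < c₁)).card : ℝ) ≤ ε * (fbox k d H).card := by
  obtain ⟨p₀, hp₀⟩ := cont k d hd (ε / 2) (by positivity)
  obtain ⟨D, hD⟩ : ∃ D, D = max e d := ⟨_, rfl⟩
  have hD1 : 1 ≤ D := by rw [hD]; exact le_max_of_le_right (by omega)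
  obtain ⟨p₁, hp₁⟩ : ∃ p₁, p₁ = max (max p₀ (2 * (k * D))) 1 := ⟨_, rfl⟩
  have hp01 : p₀ ≤ p₁ := by rw [hp₁]; exact (le_max_left _ _).trans (le_max_left _ _)
  have hp11 : 2 * (k * D) ≤ p₁ := by rw [hp₁]; exact (le_max_right _ _).trans (le_max_left _ _)
  have hp12 : 1 ≤ p₁ := by rw [hp₁]; exact le_max_right _ _
  obtain ⟨t, ht⟩ : ∃ t : ℝ, t = 4 * (D : ℝ) ^ 2 * k / ε + 1 := ⟨_, rfl⟩
  have ht1 : 1 ≤ t := by
    rw [ht]
    have : 0 ≤ 4 * (D : ℝ) ^ 2 * k / ε := by positivity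
    linarith
  have ht0 : 0 < t := by linarith
  have htt : k * (2 * (D : ℝ) ^ 2 / t ^ 2) ≤ ε / 2 := by
    rw [mul_div_assoc', div_le_iff₀ (by positivity)]
    have h1 : t ≤ t ^ 2 := by nlinarith
    have h2 : 4 * (D : ℝ) ^ 2 * k ≤ ε * t := by
      rw [ht, mul_add, mul_div_cancel₀ _ hε.ne']
      linarith
    have h3 : ε * t ≤ ε * t ^ 2 := by gcongr
    linarith
  refine ⟨Real.exp (-(k * t) - 2 * (k * D : ℕ) ^ 2) / primorial p₁, by
    have := primorial_pos p₁
    positivity, fun z A => ?_⟩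
  obtain ⟨H₁, hH₁⟩ := (hp₀ A).exists_forall_of_atTop
  refine ⟨max H₁ (primorial z), fun H hH P hPe hPc => ?_⟩
  have hH1 : H₁ ≤ H := (le_max_left _ _).trans hH
  have hHz : primorial z ≤ H := (le_max_right _ _).trans hH
  have c1 := hH₁ H hH1 (fun i => (P i).coeff 1) (fun i => (P i).coeff 2) (fun i => hPc i 1)
  obtain ⟨I, hI⟩ : ∃ I, I = Icc (-(H : ℤ)) H := ⟨_, rfl⟩
  have hIc : I.card = 2 * H + 1 := by rw [hI, Int.card_Icc]; omega
  have hIne : I.Nonempty := by rw [← card_pos, hIc]; omega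
  obtain ⟨Q, hQ⟩ : ∃ Q : Fin k → (Fin k → Fin (d + 1) → ℤ) → Prop, Q = (fun i a => ∃ p : ℕ, p.Prime ∧ p₀ < p ∧
      (p : ℤ) ∣ (P i).coeff 1 + a i ⟨1, by omega⟩ ∧ (p : ℤ) ∣ (P i).coeff 2 + a i ⟨2, by omega⟩) := ⟨_, rfl⟩
  obtain ⟨X, hX⟩ : ∃ X : Fin k → (Fin k → Fin (d + 1) → ℤ) → ℝ, X = fun i a =>
      ∑ p ∈ (primesTo z).filter (fun p => p₁ < p), ((rho (P i) (a i) p : ℝ) - 1) / p := ⟨_, rfl⟩
  have hrootQ : ∀ i a, ¬ Q i a → ∀ p : ℕ, p.Prime → p₁ < p → ∀ x : ℤ, rt (fun n => (npol (P i) (Fin.tail (a i))).eval (n : ℤ)) p x ≤ D := by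
    intro i a hQa p hp hpp x
    apply rt_le _ (by rw [hD]; exact npol_deg _ _ (hPe i) _) p hp
    by_contra hcon
    push Not at hcon
    apply hQa
    rw [hQ]
    refine ⟨p, hp, by omega, ?_, ?_⟩
    · have h1 := hcon 1 (le_refl 1)
      have h2 := npol_coeff (P i) (Fin.tail (a i)) ⟨0, by omega⟩
      simp only [zero_add] at h2
      rw [h2] at h1
      exact h1
    · have h1 := hcon 2 (by norm_num)
      have h2 := npol_coeff (P i) (Fin.tail (a i)) ⟨1, by omega⟩
      simp only [Nat.reduceAdd] at h2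
      rw [h2] at h1
      exact h1
  have hsub : (fbox k d H).filter (fun a => (∀ p ∈ primesTo z, omega P a p < p) ∧ bhConst P z a < Real.exp (-(k * t) - 2 * (k * D : ℕ) ^ 2) / primorial p₁) ⊆
      (fbox k d H).filter (fun a => ∃ i, Q i a) ∪ univ.biUnion (fun i => (fbox k d H).filter (fun a => ¬ Q i a ∧ t < X i a)) := by
    intro a ha
    rw [mem_filter] at ha
    obtain ⟨h1, h2, h3⟩ := ha
    rw [mem_union, mem_filter, mem_biUnion]
    by_contra hcon
    push Not at hcon
    obtain ⟨hc1, hc2⟩ := hcon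
    have hc1 := hc1 h1
    apply absurd h3
    rw [not_lt]
    apply bh_lower P a z p₁ D hp12 hp11 t h2
    · intro i p hp hpp
      rw [rho_rt]
      exact hrootQ i a (hc1 i) p (mem_filter.1 hp).2 hpp _
    · intro i
      have h4 := hc2 i (mem_univ _)
      rw [mem_filter] at h4
      by_contra h5
      apply h4
      refine ⟨h1, hc1 i, ?_⟩
      rw [hX]
      exact not_le.1 h5
  have b1 : (((fbox k d H).filter (fun a => ∃ i, Q i a)).card : ℝ) ≤ ε / 2 * (fbox k d H).card := by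
    rw [hQ]
    unfold fbox
    convert c1
  have b2 : ∀ i, (((fbox k d H).filter (fun a => ¬ Q i a ∧ t < X i a)).card : ℝ) ≤ 2 * (D : ℝ) ^ 2 / t ^ 2 * (fbox k d H).card := by
    intro i
    unfold fbox
    rw [← hI]
    apply upd_count I hIne i 0
    intro a _
    have htail : ∀ x : ℤ, Fin.tail (Function.update (a i) 0 x) = Fin.tail (a i) := by
      intro x
      funext l
      unfold Fin.tail
      rw [Function.update_of_ne (Fin.succ_ne_zero l)]
    have hQu : ∀ x : ℤ, Q i (Function.update a i (Function.update (a i) 0 x)) ↔ Q i a := by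
      intro x
      rw [hQ]
      simp only [Function.update_self]
      have n1 : (⟨1, by omega⟩ : Fin (d + 1)) ≠ 0 := by
        intro h; have := congrArg Fin.val h; simp at this
      have n2 : (⟨2, by omega⟩ : Fin (d + 1)) ≠ 0 := by
        intro h; have := congrArg Fin.val h; simp at this
      rw [Function.update_of_ne n1, Function.update_of_ne n2]
    by_cases hQa : Q i a
    · have : I.filter (fun x => ¬ Q i (Function.update a i (Function.update (a i) 0 x)) ∧ t < X i (Function.update a i (Function.update (a i) 0 x))) = ∅ := by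
        rw [filter_eq_empty_iff]
        intro x _ hx
        exact hx.1 ((hQu x).2 hQa)
      rw [this, card_empty, Nat.cast_zero]
      positivity
    · have h1 := rt_tail (fun n => (npol (P i) (Fin.tail (a i))).eval (n : ℤ)) z p₁ D H hp12 hD1 t ht0 hHz
        (fun p hp hpp x => hrootQ i a hQa p (mem_filter.1 hp).2 hpp x)
      rw [hIc]
      push_cast
      refine le_trans ?_ h1
      rw [← hI, Nat.cast_le]
      apply card_le_card
      intro x hx
      rw [mem_filter] at hx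
      rw [mem_filter]
      refine ⟨hx.1, ?_⟩
      have h2 := hx.2.2
      rw [hX] at h2
      simp only [Function.update_self, rho_rt] at h2
      rw [htail] at h2
      exact h2
  calc _ ≤ ((((fbox k d H).filter (fun a => ∃ i, Q i a) ∪ univ.biUnion (fun i => (fbox k d H).filter (fun a => ¬ Q i a ∧ t < X i a))).card : ℕ) : ℝ) := by
        exact_mod_cast card_le_card hsub
    _ ≤ (((fbox k d H).filter (fun a => ∃ i, Q i a)).card : ℝ) + ∑ i, (((fbox k d H).filter (fun a => ¬ Q i a ∧ t < X i a)).card : ℝ) := by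
        exact_mod_cast (card_union_le _ _).trans (Nat.add_le_add_left card_biUnion_le _)
    _ ≤ ε / 2 * (fbox k d H).card + ∑ _i : Fin k, 2 * (D : ℝ) ^ 2 / t ^ 2 * (fbox k d H).card := add_le_add b1 (sum_le_sum fun i _ => b2 i)
    _ = (ε / 2 + k * (2 * (D : ℝ) ^ 2 / t ^ 2)) * (fbox k d H).card := by
        rw [sum_const, card_univ, Fintype.card_fin, nsmul_eq_mul]
        ring
    _ ≤ ε * (fbox k d H).card := by
        apply mul_le_mul_of_nonneg_right _ (Nat.cast_nonneg _)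
        linarith

end Pool.Agent.H11S
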