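import Mathlib
import Pool.Agent.H11S.TailB
import Pool.Agent.H11S.Conc

/-! Szemerédi's theorem for the prime values of almost all systems: assembly. -/

set_option autoImplicit false

namespace Pool.Agent.H11S

open Finset Filter Pool.Agent.H11P Pool.Agent.H11P.Law Pool.Agent.Y871.LW

variable {k d : ℕ}

theorem copk_class (c : Fin k → ℕ → ℤ) (H W : ℕ) (α a : Fin k → Fin (d + 1) → ℤ) (ha : a ∈ bxk H W α) (D : Finset ℕ) :
    copk c W a D = copk c W α D := by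
  classical
  unfold copk
  congr 1
  apply filter_congr
  intro n _
  apply forall_congr'
  intro i
  unfold bxk at ha
  have h1 := fv_mod (c i) H W (α i) (a i) (Fintype.mem_piFinset.1 ha i) n
  obtain ⟨q, hq⟩ := h1.symm.dvd
  have e : fv (c i) (a i) n = fv (c i) (α i) n + W * q := by linarith
  rw [e]
  constructor
  · intro h
    have := h.add_mul_left_left (-q)
    have e2 : fv (c i) (α i) n + W * q + (W : ℤ) * -q = fv (c i) (α i) n := by ring
    rwa [e2] at this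
  · intro h
    exact h.add_mul_left_left q

theorem omega_lt (P : Fin k → Polynomial ℤ) (a : Fin k → Fin (d + 1) → ℤ) (p : ℕ) (hp : p.Prime)
    (h : ∃ n : ℕ, ∀ i, ¬ (p : ℤ) ∣ value (P i) (a i) n) : omega P a p < p := by
  classical
  obtain ⟨n, hn⟩ := h
  unfold omega
  have h1 : (range p).filter (fun n : ℕ => ∃ i, (p : ℤ) ∣ value (P i) (a i) n) ⊂ range p := by
    rw [filter_ssubset]
    refine ⟨n % p, mem_range.2 (Nat.mod_lt _ hp.pos), ?_⟩
    push Not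
    intro i hd
    apply hn i
    have h2 := value_mod (P i) (a i) p n
    exact (dvd_sub_right hd).1 h2
  have := card_lt_card h1
  rwa [card_range] at this

theorem fbox_eq (k d H : ℕ) : bxk H 1 (fun (_ : Fin k) (_ : Fin (d + 1)) => (0 : ℤ)) = fbox k d H := by
  unfold bxk fbox Pool.Agent.H11P.bx cls
  congr 1
  funext i
  congr 1
  funext l
  apply filter_true_of_mem
  intro x _
  simp [Int.modEq_one]

theorem eval_bd (P : Polynomial ℤ) (e : ℕ) (hP : P.natDegree ≤ e) (M Y : ℝ) (hM : 0 ≤ M) (hY : 1 ≤ Y) (hc : ∀ j, |(P.coeff j : ℝ)| ≤ M) (n : ℕ) (hn : (n : ℝ) ≤ Y) :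
    |((P.eval (n : ℤ) : ℤ) : ℝ)| ≤ (e + 1) * M * Y ^ e := by
  rw [Polynomial.eval_eq_sum_range' (Nat.lt_succ_of_le hP)]
  push_cast
  refine (abs_sum_le_sum_abs _ _).trans ?_
  have h1 : ∀ j ∈ range (e + 1), |(P.coeff j : ℝ) * (n : ℝ) ^ j| ≤ M * Y ^ e := by
    intro j hj
    rw [mem_range] at hj
    rw [abs_mul, abs_pow, Nat.abs_cast]
    have h2 : (n : ℝ) ^ j ≤ Y ^ e := by
      calc (n : ℝ) ^ j ≤ Y ^ j := by gcongr
        _ ≤ Y ^ e := pow_le_pow_right₀ hY (by omega)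
    exact mul_le_mul (hc j) h2 (by positivity) hM
  refine (sum_le_sum h1).trans ?_
  rw [sum_const, card_range, nsmul_eq_mul]
  push_cast
  apply le_of_eq
  ring

open Classical in
theorem sz (hSW : SWU) (hU : UNI) (k d e m : ℕ) (hk : 1 ≤ k) (hd : 2 ≤ d) (hm : 1 ≤ m) (ε : ℝ) (hε : 0 < ε) :
    ∃ z₀ B : ℕ, ∀ z ≥ z₀, ∀ A : ℕ, ∃ H₀ : ℕ, ∀ H ≥ H₀,
    ∀ P : Fin k → Polynomial ℤ, (∀ i, (P i).natDegree ≤ e) → (∀ i j, |((P i).coeff j : ℝ)| ≤ H * Real.log H ^ A) →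
    ∀ J L : ℕ, Real.log H ^ B ≤ L → ((J + L : ℕ) : ℝ) ≤ Real.log H ^ A →
    ∃ Bad ⊆ fbox k d H, (Bad.card : ℝ) ≤ ε * (fbox k d H).card ∧ ∀ a ∈ fbox k d H, a ∉ Bad →
      (∀ p ∈ primesTo z, ∃ n : ℕ, ∀ i, ¬ (p : ℤ) ∣ value (P i) (a i) n) →
      0 < bhConst P z a ∧
      |((hitset P a J L).card : ℝ) - bhConst P z a * L / Real.log H ^ k| ≤ ε * (bhConst P z a * L / Real.log H ^ k) ∧
      Cov (hitset P a J L) m (Real.log H ^ B) (ε * (hitset P a J L).card) := by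
  obtain ⟨ε₀, hε₀⟩ : ∃ ε₀ : ℝ, ε₀ = min ε 1 := ⟨_, rfl⟩
  have he0 : 0 < ε₀ := by rw [hε₀]; exact lt_min hε one_pos
  have he1 : ε₀ ≤ 1 := by rw [hε₀]; exact min_le_right _ _
  have heε : ε₀ ≤ ε := by rw [hε₀]; exact min_le_left _ _
  obtain ⟨c₁, hc₁, htail⟩ := tail k d e hd (ε₀ / 4) (by positivity)
  obtain ⟨ε₁, hε₁⟩ : ∃ ε₁ : ℝ, ε₁ = ε₀ * c₁ / 4 := ⟨_, rfl⟩
  have hε₁0 : 0 < ε₁ := by rw [hε₁]; positivity
  obtain ⟨z0, hconc⟩ := conc hSW k d hk (by omega) ε₁ (ε₀ / 4) hε₁0 (by positivity)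
  obtain ⟨ε₃, hε₃⟩ : ∃ ε₃ : ℝ, ε₃ = min (ε₀ * c₁ / 4) (ε₀ / 4) := ⟨_, rfl⟩
  have hε₃0 : 0 < ε₃ := by rw [hε₃]; apply lt_min <;> positivity
  have hε₃1 : ε₃ ≤ ε₀ * c₁ / 4 := by rw [hε₃]; exact min_le_left _ _
  have hε₃2 : ε₃ ≤ ε₀ / 4 := by rw [hε₃]; exact min_le_right _ _
  obtain ⟨B₁, hB₁⟩ := uni_app hU k d e m hd hm ε₃ hε₃0
  refine ⟨z0, max B₁ (k + 1), fun z hz A => ?_⟩
  obtain ⟨A', hA'⟩ : ∃ A', A' = A * (e + 1) + 1 := ⟨_, rfl⟩
  obtain ⟨Ha, hHa⟩ := hconc z hz A'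
  obtain ⟨Hb, hHb⟩ := htail z A
  obtain ⟨Hc, hHc⟩ := hB₁ A
  obtain ⟨κ, hκ⟩ : ∃ κ, κ = kap (primorial z) := ⟨_, rfl⟩
  have hκ1 : 1 ≤ κ := by rw [hκ]; exact kap_ge _ (primorial_pos z)
  obtain ⟨Hd, hHd⟩ := ((ev_log (e + 1)).and (ev_log (κ ^ k * primorial z / ε₁))).exists_forall_of_atTop
  refine ⟨max (max Ha Hb) (max Hc Hd), fun H hH P hPe hPc J L hL hJL => ?_⟩
  have hHa' : Ha ≤ H := (le_max_left _ _).trans ((le_max_left _ _).trans hH)
  have hHb' : Hb ≤ H := (le_max_right _ _).trans ((le_max_left _ _).trans hH)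
  have hHc' : Hc ≤ H := (le_max_left _ _).trans ((le_max_right _ _).trans hH)
  have hHd' : Hd ≤ H := (le_max_right _ _).trans ((le_max_right _ _).trans hH)
  obtain ⟨g1, g2⟩ := hHd H hHd'
  obtain ⟨ℓ, hℓ⟩ : ∃ ℓ : ℝ, ℓ = Real.log H := ⟨_, rfl⟩
  have hℓ1 : 1 ≤ ℓ := by
    rw [hℓ]
    have : (0 : ℝ) ≤ e := Nat.cast_nonneg _
    linarith
  have hℓ0 : 0 < ℓ := by linarith
  have hLk : Real.log H ^ (k + 1) ≤ L := by
    refine le_trans ?_ hL
    rw [← hℓ]
    exact pow_le_pow_right₀ hℓ1 (le_max_right _ _)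
  have hLB : Real.log H ^ B₁ ≤ L := by
    refine le_trans ?_ hL
    rw [← hℓ]
    exact pow_le_pow_right₀ hℓ1 (le_max_left _ _)
  have hAA : A ≤ A' := by rw [hA']; nlinarith
  have hJL' : ((J + L : ℕ) : ℝ) ≤ Real.log H ^ A' := by
    refine hJL.trans ?_
    rw [← hℓ]
    exact pow_le_pow_right₀ hℓ1 hAA
  -- the bound for the values of the background polynomials
  have hval : ∀ i, ∀ n ∈ Ioc J (J + L), |(((P i).eval (n : ℤ) : ℤ) : ℝ)| ≤ H * Real.log H ^ A' := by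
    intro i n hn
    rw [mem_Ioc] at hn
    have hn' : (n : ℝ) ≤ Real.log H ^ A := by
      refine le_trans ?_ hJL
      exact_mod_cast hn.2
    have h1 := eval_bd (P i) e (hPe i) (H * Real.log H ^ A) (Real.log H ^ A) (by rw [← hℓ]; positivity)
      (by rw [← hℓ]; exact one_le_pow₀ hℓ1) (hPc i) n hn'
    refine h1.trans ?_
    rw [← hℓ] at g1 ⊢
    calc ((e : ℝ) + 1) * (H * ℓ ^ A) * (ℓ ^ A) ^ e ≤ ℓ * (H * ℓ ^ A) * (ℓ ^ A) ^ e := by gcongr
      _ = H * ℓ ^ A' := by rw [hA', pow_succ, pow_mul, pow_succ]; ring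
  -- the three exceptional sets
  obtain ⟨c, hc⟩ : ∃ c : Fin k → ℕ → ℤ, c = fun i (n : ℕ) => (P i).eval (n : ℤ) := ⟨_, rfl⟩
  obtain ⟨Q, hQ⟩ : ∃ Q : (Fin k → Fin (d + 1) → ℤ) → Prop, Q = fun a => ε₁ * (L / Real.log H ^ k) <
      |(cntk c a (Ioc J (J + L)) : ℝ) - (kap (primorial z) / Real.log H) ^ k * copk c (primorial z) a (Ioc J (J + L))| := ⟨_, rfl⟩
  have b1 : (((fbox k d H).filter Q).card : ℝ) ≤ ε₀ / 4 * (fbox k d H).card := by
    rw [← fbox_eq]
    apply class_sum H (primorial z) (primorial_pos z)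
    intro α
    have h1 := hHa H hHa' c α J L hLk hJL' (by rw [hc]; exact hval)
    refine le_trans ?_ h1
    rw [Nat.cast_le]
    apply card_le_card
    intro a ha
    rw [mem_filter] at ha ⊢
    refine ⟨ha.1, ?_⟩
    have h2 := ha.2
    rw [hQ] at h2
    rw [← copk_class c H (primorial z) α a ha.1]
    exact h2
  have b2 := hHb H hHb' P hPe hPc
  have b3 := hHc H hHc' P hPe hPc J L hLB
  refine ⟨(fbox k d H).filter Q ∪ ((fbox k d H).filter (fun a => (∀ p ∈ primesTo z, omega P a p < p) ∧ bhConst P z a < c₁) ∪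
    (fbox k d H).filter (fun a => ¬ Cov (hitset P a J L) m (Real.log H ^ B₁) (ε₃ * L / Real.log H ^ k))), ?_, ?_, ?_⟩
  · exact union_subset (filter_subset _ _) (union_subset (filter_subset _ _) (filter_subset _ _))
  · have h1 := (card_union_le ((fbox k d H).filter Q) ((fbox k d H).filter (fun a => (∀ p ∈ primesTo z, omega P a p < p) ∧ bhConst P z a < c₁) ∪
      (fbox k d H).filter (fun a => ¬ Cov (hitset P a J L) m (Real.log H ^ B₁) (ε₃ * L / Real.log H ^ k)))).trans (Nat.add_le_add_left (card_union_le _ _) _)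
    have h2 := (Nat.cast_le (α := ℝ)).2 h1
    push_cast at h2
    refine h2.trans ?_
    have h3 : (0 : ℝ) ≤ (fbox k d H).card := Nat.cast_nonneg _
    have h4 : ε₃ * ((fbox k d H).card : ℝ) ≤ ε₀ / 4 * (fbox k d H).card := by gcongr
    have h5 : ε₀ * ((fbox k d H).card : ℝ) ≤ ε * (fbox k d H).card := by gcongr
    have h6 : 0 ≤ ε₀ * ((fbox k d H).card : ℝ) := by positivity
    linarith
  · intro a ha haB hadm
    rw [mem_union, mem_union, mem_filter, mem_filter, mem_filter] at haB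
    push Not at haB
    obtain ⟨k1, k2, k3⟩ := haB
    have k1 := k1 ha
    have k2 := k2 ha (fun p hp => omega_lt P a p (mem_filter.1 hp).2 (hadm p hp))
    have k3 := k3 ha
    obtain ⟨S, hS⟩ : ∃ S, S = bhConst P z a := ⟨_, rfl⟩
    rw [← hS] at k2 ⊢
    obtain ⟨N, hN⟩ : ∃ N : ℝ, N = ((hitset P a J L).card : ℝ) := ⟨_, rfl⟩
    obtain ⟨T, hT⟩ : ∃ T : ℝ, T = L / ℓ ^ k := ⟨_, rfl⟩
    have hT1 : ℓ ≤ T := by
      rw [hT, le_div_iff₀ (by positivity)]
      rw [← hℓ] at hLk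
      calc ℓ * ℓ ^ k = ℓ ^ (k + 1) := by ring
        _ ≤ L := hLk
    have hT0 : 0 < T := by linarith
    have e1 : S * L / Real.log H ^ k = S * T := by rw [hT, ← hℓ]; ring
    rw [e1, ← hN]
    have hmi := mean_interval P z H a J L (by rw [← hℓ]; exact hℓ1)
    rw [← hS, e1, mean_eq] at hmi
    rw [hQ] at k1
    simp only [not_lt] at k1
    have e2 : (cntk c a (Ioc J (J + L)) : ℝ) = N := by
      rw [hN, hc]
      rfl
    rw [e2, hc] at k1
    have h1 : |N - S * T| ≤ ε₁ * T + ε₁ * T := by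
      have h2 : kap (primorial z) ^ k * (primorial z) / Real.log H ^ k ≤ ε₁ * T := by
        rw [← hκ, ← hℓ, hT, mul_div_assoc']
        apply div_le_div_of_nonneg_right _ (by positivity)
        rw [div_le_iff₀ hε₁0, ← hℓ] at g2
        rw [← hℓ] at hLk
        calc κ ^ k * (primorial z : ℝ) ≤ ℓ * ε₁ := g2
          _ = ε₁ * ℓ ^ 1 := by ring
          _ ≤ ε₁ * ℓ ^ (k + 1) := by
              have : ℓ ^ 1 ≤ ℓ ^ (k + 1) := pow_le_pow_right₀ hℓ1 (by omega)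
              gcongr
          _ ≤ ε₁ * L := by gcongr
      have h3 := hmi.trans h2
      have e3 : ε₁ * (↑L / Real.log ↑H ^ k) = ε₁ * T := by rw [hT, ← hℓ]
      rw [e3] at k1
      have h4 := abs_add_le (N - (kap (primorial z) / Real.log H) ^ k * (copk (fun i n => (P i).eval (n : ℤ)) (primorial z) a (Ioc J (J + L)) : ℝ))
        ((kap (primorial z) / Real.log H) ^ k * (copk (fun i n => (P i).eval (n : ℤ)) (primorial z) a (Ioc J (J + L)) : ℝ) - S * T)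
      have e4 : N - (kap (primorial z) / Real.log H) ^ k * (copk (fun i n => (P i).eval (n : ℤ)) (primorial z) a (Ioc J (J + L)) : ℝ) +
        ((kap (primorial z) / Real.log H) ^ k * (copk (fun i n => (P i).eval (n : ℤ)) (primorial z) a (Ioc J (J + L)) : ℝ) - S * T) = N - S * T := by ring
      rw [e4] at h4
      linarith
    have h5 : ε₁ * T + ε₁ * T ≤ ε₀ / 2 * (S * T) := by
      have : c₁ * T ≤ S * T := by gcongr
      calc ε₁ * T + ε₁ * T = ε₀ / 2 * (c₁ * T) := by rw [hε₁]; ring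
        _ ≤ ε₀ / 2 * (S * T) := by gcongr
    have hS0 : 0 < S := lt_of_lt_of_le hc₁ k2
    have hST : 0 < S * T := by positivity
    refine ⟨hS0, ?_, ?_⟩
    · refine (h1.trans h5).trans ?_
      apply mul_le_mul_of_nonneg_right _ hST.le
      linarith
    · have h6 : S * T / 2 ≤ N := by
        have h7 := (abs_le.1 (h1.trans h5)).1
        have h8 : ε₀ / 2 * (S * T) ≤ 1 / 2 * (S * T) := by gcongr
        linarith
      have h9 : ε₃ * L / Real.log H ^ k ≤ ε * N := by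
        have e5 : ε₃ * L / Real.log H ^ k = ε₃ * T := by rw [hT, ← hℓ]; ring
        rw [e5]
        calc ε₃ * T ≤ ε₀ * c₁ / 4 * T := by gcongr
          _ = ε₀ / 4 * (c₁ * T) := by ring
          _ ≤ ε₀ / 4 * (S * T) := by gcongr
          _ = ε₀ / 2 * (S * T / 2) := by ring
          _ ≤ ε₀ / 2 * N := by gcongr
          _ ≤ ε * N := by
              have hN0 : 0 ≤ N := by linarith
              gcongr
              linarith
      intro S' hS' T' hT' hn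
      refine (k3 S' hS' T' hT' (fun n hn' hap => hn n hn' ?_)).trans h9
      obtain ⟨b, q, h10, h11, h12⟩ := hap
      refine ⟨b, q, h10, h11.trans ?_, h12⟩
      rw [← hℓ]
      exact pow_le_pow_right₀ hℓ1 (le_max_left _ _)

end Pool.Agent.H11S
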