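import Mathlib
import Pool.Agent.H11S.Sz
import Pool.Agent.H11P.SWc
import Pool.Agent.Y871.LW.Uni
import Pool.Agent.Y871.LW.Top

/-! The Bateman-Horn asymptotic formula and a relative Szemerédi theorem in windows of polylogarithmic
length, for almost all systems of polynomials. -/

set_option autoImplicit false

namespace Pool.Agent.Results.MP_51e72e_nt.SzemerediWindows

open Finset
open Pool.Agent.H11P.Law (value bhConst)

/-- the arrays `(a i l)`, `i < k`, `l ≤ d`, of integers in `[-H, H]` -/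
noncomputable def arrays (k d H : ℕ) : Finset (Fin k → Fin (d + 1) → ℤ) :=
  Fintype.piFinset fun _ => Fintype.piFinset fun _ => Icc (-(H : ℤ)) H

/-- the `n` with `J < n ≤ J + L` for which all `|f_i(n)|` are primes, `f_i = P_i + ∑ a_il x^l` -/
def points {k d : ℕ} (P : Fin k → Polynomial ℤ) (a : Fin k → Fin (d + 1) → ℤ) (J L : ℕ) : Finset ℕ :=
  (Ioc J (J + L)).filter fun n => ∀ i, (value (P i) (a i) n).natAbs.Prime

/-- `n` is a term of a progression of `m` terms in `S` with a difference `1 ≤ q ≤ D` -/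
def InProgression (S : Finset ℕ) (m : ℕ) (D : ℝ) (n : ℕ) : Prop :=
  ∃ b q : ℕ, 1 ≤ q ∧ (q : ℝ) ≤ D ∧ (∀ j < m, b + j * q ∈ S) ∧ ∃ j < m, n = b + j * q

open Classical in
/-- the elements of `S` which do not lie in such a progression -/
noncomputable def outside (S : Finset ℕ) (m : ℕ) (D : ℝ) : Finset ℕ :=
  S.filter fun n => ¬ InProgression S m D n

theorem result (k d e m : ℕ) (hk : 1 ≤ k) (hd : 2 ≤ d) (hm : 1 ≤ m) (ε : ℝ) (hε : 0 < ε) :
    ∃ z₀ B : ℕ, ∀ z ≥ z₀, ∀ A : ℕ, ∃ H₀ : ℕ, ∀ H ≥ H₀,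
      ∀ P : Fin k → Polynomial ℤ, (∀ i, (P i).natDegree ≤ e) →
      (∀ i j, |((P i).coeff j : ℝ)| ≤ H * Real.log H ^ A) →
      ∀ J L : ℕ, Real.log H ^ B ≤ L → ((J + L : ℕ) : ℝ) ≤ Real.log H ^ A →
      ∃ Bad ⊆ arrays k d H, (#Bad : ℝ) ≤ ε * #(arrays k d H) ∧
      ∀ a ∈ arrays k d H, a ∉ Bad →
        (∀ p : ℕ, p.Prime → p ≤ z → ∃ n : ℕ, ∀ i, ¬ (p : ℤ) ∣ value (P i) (a i) n) →
        0 < bhConst P z a ∧
        |(#(points P a J L) : ℝ) - bhConst P z a * L / Real.log H ^ k| ≤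
          ε * (bhConst P z a * L / Real.log H ^ k) ∧
        ∀ S ⊆ points P a J L, (#(outside S m (Real.log H ^ B)) : ℝ) ≤ ε * #(points P a J L) := by
  classical
  obtain ⟨z₀, B, h0⟩ := Pool.Agent.H11S.sz Pool.Agent.H11P.swU
    (Pool.Agent.Y871.LW.t_UNI Pool.Agent.Y871.LW.gen_all) k d e m hk hd hm ε hε
  refine ⟨z₀, B, fun z hz A => ?_⟩
  obtain ⟨H₀, h1⟩ := h0 z hz A
  refine ⟨H₀, fun H hH P hPe hPc J L hL hJL => ?_⟩
  obtain ⟨Bad, hB1, hB2, hB3⟩ := h1 H hH P hPe hPc J L hL hJL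
  refine ⟨Bad, hB1, hB2, fun a ha hab hadm => ?_⟩
  obtain ⟨r1, r2, r3⟩ := hB3 a ha hab (fun p hp => by
    have hp' := mem_filter.1 hp
    rw [mem_range] at hp'
    exact hadm p hp'.2 (by omega))
  refine ⟨r1, r2, fun S hS => ?_⟩
  exact r3 S hS (outside S m (Real.log H ^ B)) (filter_subset _ _) (fun n hn => (mem_filter.1 hn).2)

end Pool.Agent.Results.MP_51e72e_nt.SzemerediWindows
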